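import Pool.Agent.N160.EK.KfrA
import Pool.Agent.N170.VS.Pot
import Pool.Agent.N207.VS.Lapl

/-!
# EK/9, part 2: the products `R_d` and `S_d`
-/

set_option autoImplicit false

namespace Pool.Agent.N160.EK

open Filter Finset Topology Metric MeasureTheory
open Pool.Agent.W711.HT
open Pool.Agent.N561
open GapVol EvenVol EvenVol.LobIneq
open Pool.Agent.N170.VS (LL_re LS_re)
open Pool.Agent.N119.VS (cos_re' cos_im' sin_re' sin_im')
open scoped Real

/-- the bound of `R_d` and the potential -/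
theorem bb_RR {δ x : ℝ} (h0 : 0 ≤ δ) (h : 2 * π * δ + |x| < π) :
    bb δ x = (RR δ x).re - 2 * ((LS (π * δ)).re / π) := by
  have hπ := Real.pi_pos
  have hx := abs_lt.1 (show |x| < π - 2 * π * δ by linarith)
  have hx0 := abs_nonneg x
  have hbp : 0 ≤ π * δ := by positivity
  have e1 : (π : ℂ) * (δ : ℂ) + (x : ℂ) / 2 = ((π * δ + x / 2 : ℝ) : ℂ) := by push_cast; ring
  have e2 : (π : ℂ) * (δ : ℂ) - (x : ℂ) / 2 = ((π * δ - x / 2 : ℝ) : ℂ) := by push_cast; ring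
  have e3 : (π : ℂ) * (δ : ℂ) = ((π * δ : ℝ) : ℂ) := by push_cast; ring
  have l1 : LL (π * δ + x / 2) = ((lob (π / 2 - (π * δ + x / 2)) : ℝ) : ℂ) := by
    rw [e1, LL_re]
    rw [abs_lt]; constructor <;> linarith
  have l2 : LL (π * δ - x / 2) = ((lob (π / 2 - (π * δ - x / 2)) : ℝ) : ℂ) := by
    rw [e2, LL_re]
    rw [abs_lt]; constructor <;> linarith
  have l3 : (LS ((π * δ : ℝ) : ℂ)).re = -lob (π * δ) := LS_re hbp (by linarith)
  have e4 : (RR δ x).re =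
      (lob (π / 2 - (π * δ + x / 2)) + lob (π / 2 - (π * δ - x / 2))) / π := by
    unfold RR
    rw [l1, l2]
    have f1 : (((lob (π / 2 - (π * δ + x / 2)) : ℝ) : ℂ) +
        ((lob (π / 2 - (π * δ - x / 2)) : ℝ) : ℂ)) / (π : ℂ) =
        (((lob (π / 2 - (π * δ + x / 2)) + lob (π / 2 - (π * δ - x / 2))) / π : ℝ) : ℂ) := by
      push_cast; ring
    rw [f1, Complex.ofReal_re]
  rw [e4, e3, l3, Pool.Agent.W688.HT.bb_eq]
  have g1 : lob (x / 2 + π / 2 + π * δ) = -lob (π / 2 - (π * δ + x / 2)) := by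
    rw [← lob_neg, show -(π / 2 - (π * δ + x / 2)) = (x / 2 + π / 2 + π * δ) - π by ring]
    have := lob_per (x / 2 + π / 2 + π * δ - π)
    rw [sub_add_cancel] at this
    exact this
  have g2 : lob (x / 2 + π / 2 - π * δ) = lob (π / 2 - (π * δ - x / 2)) := by
    congr 1; ring
  rw [g1, g2]
  ring

/-- `bb` is decreasing in `δ` on `[1 / 4, 1 / 2]` -/
theorem bb_dec {a b x : ℝ} (ha : 1 / 4 ≤ a) (hab : a ≤ b) (hb : b ≤ 1 / 2) :
    bb b x ≤ bb a x := by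
  have hπ := Real.pi_pos
  set B : ℝ := x / 2 + π / 2 with hB
  have i1 : IntervalIntegrable (fun t => 2 * g t) volume (π * a) (π * b) :=
    (g_int _ _).const_mul 2
  have i2 := g_int_add B (π * a) (π * b)
  have i3 := g_int_sub B (π * a) (π * b)
  have h1 : ∫ t in (π * a)..(π * b), (2 * g t - g (B + t) - g (B - t)) =
      π * (bb b x - bb a x) := by
    rw [intervalIntegral.integral_sub (i1.sub i2) i3, intervalIntegral.integral_sub i1 i2,
      intervalIntegral.integral_const_mul, ← lob_sub,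
      intervalIntegral.integral_comp_add_left g B, intervalIntegral.integral_comp_sub_left g B,
      ← lob_sub, ← lob_sub, Pool.Agent.W688.HT.bb_eq, Pool.Agent.W688.HT.bb_eq, ← hB]
    field_simp
    ring
  have h2 : 0 ≤ ∫ t in (π * a)..(π * b), -(2 * g t - g (B + t) - g (B - t)) := by
    apply intervalIntegral.integral_nonneg_of_ae_restrict
      (mul_le_mul_of_nonneg_left hab hπ.le)
    rw [Filter.EventuallyLE, ae_restrict_iff' measurableSet_Icc]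
    filter_upwards [sin_ae_ne, ae_add B, ae_sub B] with t h3 h4 h5 ht
    have h6 := Pool.Agent.W688.HT.ratio h3 h4 h5
    rw [Pi.zero_apply, ← h6, neg_nonneg]
    have t1 : π * (1 / 4) ≤ t := le_trans (mul_le_mul_of_nonneg_left ha hπ.le) ht.1
    have t2 : t ≤ π * (1 / 2) := ht.2.trans (mul_le_mul_of_nonneg_left hb hπ.le)
    have hc : Real.cos (2 * t) ≤ 0 :=
      Real.cos_nonpos_of_pi_div_two_le_of_le (by linarith) (by linarith)
    have hc1 := Real.neg_one_le_cos (2 * t)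
    have hx1 := Real.neg_one_le_cos x
    have hx2 := Real.cos_le_one x
    apply Real.log_nonpos
    · exact div_nonneg (abs_nonneg _) (by linarith)
    · rw [div_le_one (by linarith), abs_le]
      constructor <;> linarith
  rw [intervalIntegral.integral_neg, h1] at h2
  nlinarith

theorem bb_small (x : ℝ) {η : ℝ} (hη : 0 < η) : ∃ δ₀ : ℝ, 0 < δ₀ ∧ ∀ δ : ℝ, 0 ≤ δ → δ ≤ δ₀ →
    bb δ x ≤ η := by
  have h1 : Continuous fun δ : ℝ => (2 * lob (π * δ) - lob ((x / 2 + π / 2) + π * δ) +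
      lob ((x / 2 + π / 2) - π * δ)) / π := by
    have := lob_cont
    fun_prop
  have h2 : (2 * lob (π * 0) - lob ((x / 2 + π / 2) + π * 0) +
      lob ((x / 2 + π / 2) - π * 0)) / π = 0 := by
    simp [lob_zero']
  have h3 := Metric.continuousAt_iff.1 (h1.continuousAt (x := (0 : ℝ))) η hη
  obtain ⟨δ₀, h4, h5⟩ := h3
  refine ⟨δ₀ / 2, by positivity, fun δ hδ0 hδ1 => ?_⟩
  have h6 := h5 (show dist δ 0 < δ₀ by
    rw [Real.dist_eq, sub_zero, abs_of_nonneg hδ0]; linarith)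
  rw [h2, Real.dist_eq, sub_zero] at h6
  rw [Pool.Agent.W688.HT.bb_eq]
  exact (le_abs_self _).trans h6.le

theorem bet_ge : 0.54 ≤ bet := by
  have hp := Real.pi_gt_d4
  have hp' := Real.pi_lt_d4
  have h1 : ∫ t in (0:ℝ)..(π / 4), Real.log (2 * Real.sin t) ≤
      ∫ t in (0:ℝ)..(π / 4), (Real.log 2 + Real.log t) := by
    have i1 : IntervalIntegrable (fun t => Real.log (2 * Real.sin t)) volume 0 (π / 4) := by
      have := (g_int 0 (π / 4)).neg
      refine this.congr ?_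
      intro t _
      simp only
      rw [Pi.neg_apply, g_eq_abs, neg_neg, Real.log_abs]
    have i2 : IntervalIntegrable (fun t => Real.log 2 + Real.log t) volume 0 (π / 4) :=
      intervalIntegrable_const.add intervalIntegral.intervalIntegrable_log'
    refine intervalIntegral.integral_mono_on_of_le_Ioo (by linarith) i1 i2 fun t ht => ?_
    have hs : 0 < Real.sin t := Real.sin_pos_of_pos_of_lt_pi ht.1 (by linarith [ht.2])
    rw [← Real.log_mul two_ne_zero ht.1.ne']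
    apply Real.log_le_log (by positivity)
    have := Real.sin_le ht.1.le
    linarith
  have h2 : ∫ t in (0:ℝ)..(π / 4), (Real.log 2 + Real.log t) =
      π / 4 * (Real.log (π / 2) - 1) := by
    rw [intervalIntegral.integral_add intervalIntegrable_const
      intervalIntegral.intervalIntegrable_log', intervalIntegral.integral_const, integral_log]
    have h3 : Real.log (π / 2) = Real.log 2 + Real.log (π / 4) := by
      rw [← Real.log_mul two_ne_zero (by positivity)]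
      congr 1; ring
    rw [h3]
    simp only [smul_eq_mul]
    ring
  have h3 : Real.log (π / 2) ≤ 0.46 := by
    rw [Real.log_le_iff_le_exp (by positivity)]
    have h4 := Real.sum_le_exp_of_nonneg (x := 0.46) (by norm_num) 4
    simp only [Finset.sum_range_succ, Finset.sum_range_zero, Nat.factorial] at h4
    norm_num at h4 ⊢
    linarith
  unfold bet
  rw [h2] at h1
  have h4 : (4 / π) * ∫ t in (0:ℝ)..(π / 4), Real.log (2 * Real.sin t) ≤
      (4 / π) * (π / 4 * (Real.log (π / 2) - 1)) := mul_le_mul_of_nonneg_left h1 (by positivity)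
  have h5 : (4 / π) * (π / 4 * (Real.log (π / 2) - 1)) = Real.log (π / 2) - 1 := by
    field_simp
  rw [h5] at h4
  linarith

/-! ### The products -/

theorem norm_cos_le {ψ : ℂ} (hb : |ψ.im| < 1 / 4) : ‖Complex.cos ψ‖ ≤ 1.0325 := by
  have h1 : Real.cosh ψ.im ≤ 1.0325 := by
    have h := cosh_le' hb.le
    have h3 : ψ.im ^ 2 ≤ 1 / 16 := by
      rw [← sq_abs]
      have := pow_le_pow_left₀ (abs_nonneg ψ.im) hb.le 2
      norm_num at this ⊢
      exact this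
    norm_num at h ⊢
    linarith
  have h0 := Real.one_le_cosh ψ.im
  apply abs_le_of_sq_le_sq' _ (by norm_num) |>.2
  rw [← Complex.normSq_eq_norm_sq, Complex.normSq_apply, cos_re', cos_im']
  have e1 := Real.sin_sq_add_cos_sq ψ.re
  have e2 := Real.cosh_sq ψ.im
  have e3 : Real.cosh ψ.im ^ 2 ≤ 1.0325 ^ 2 := pow_le_pow_left₀ (by linarith) h1 2
  have e4 : Real.cos ψ.re * Real.cosh ψ.im * (Real.cos ψ.re * Real.cosh ψ.im) +
      -(Real.sin ψ.re * Real.sinh ψ.im) * -(Real.sin ψ.re * Real.sinh ψ.im) =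
      Real.cosh ψ.im ^ 2 - Real.sin ψ.re ^ 2 := by
    have e5 : Real.sinh ψ.im ^ 2 = Real.cosh ψ.im ^ 2 - 1 := by linarith
    have e6 : Real.cos ψ.re ^ 2 = 1 - Real.sin ψ.re ^ 2 := by linarith
    have : Real.cos ψ.re * Real.cosh ψ.im * (Real.cos ψ.re * Real.cosh ψ.im) +
      -(Real.sin ψ.re * Real.sinh ψ.im) * -(Real.sin ψ.re * Real.sinh ψ.im) =
      Real.cos ψ.re ^ 2 * Real.cosh ψ.im ^ 2 + Real.sin ψ.re ^ 2 * Real.sinh ψ.im ^ 2 := by ring
    rw [this, e5, e6]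
    ring
  rw [e4]
  have := sq_nonneg (Real.sin ψ.re)
  linarith

theorem Rp_small {N d : ℕ} (hd : 4 * d ≤ N) {ψ : ℂ} (hb : |ψ.im| < 1 / 4) :
    ‖Rp N d ψ‖ ≤ (11 / 10) ^ d * ‖Rp N d 0‖ := by
  have e0 : (11 / 10 : ℝ) ^ d * ‖Rp N d 0‖ = ∏ j ∈ range d, ((11 / 10 : ℝ) *
      ‖2 * Complex.cos 0 + 2 * (Real.cos (phi N j) : ℂ)‖) := by
    unfold Rp
    rw [norm_prod, Finset.prod_mul_distrib, Finset.prod_const, Finset.card_range]
  rw [e0]
  unfold Rp
  rw [norm_prod]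
  apply Finset.prod_le_prod (fun _ _ => norm_nonneg _)
  intro j hj
  rw [Finset.mem_range] at hj
  have hN : (0 : ℝ) < N := by
    have : 0 < N := by omega
    exact_mod_cast this
  have hφ0 : 0 ≤ phi N j := by unfold phi; positivity
  have hφ1 : phi N j ≤ π / 2 := by
    unfold phi
    rw [div_le_iff₀ hN]
    have h1 : 2 * (2 * j + 1) ≤ N := by omega
    have h2 : (2 : ℝ) * (2 * j + 1) ≤ N := by exact_mod_cast h1
    nlinarith [Real.pi_pos]
  have hc : 0 ≤ Real.cos (phi N j) :=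
    Real.cos_nonneg_of_neg_pi_div_two_le_of_le (by linarith [Real.pi_pos]) hφ1
  have h3 := norm_cos_le hb
  have h4 : ‖2 * Complex.cos ψ + 2 * (Real.cos (phi N j) : ℂ)‖ ≤
      2 * 1.0325 + 2 * Real.cos (phi N j) := by
    refine (norm_add_le _ _).trans ?_
    rw [norm_mul, norm_mul, Complex.norm_ofNat, Complex.norm_real, Real.norm_eq_abs,
      abs_of_nonneg hc]
    linarith
  have h5 : ‖2 * Complex.cos 0 + 2 * (Real.cos (phi N j) : ℂ)‖ = 2 + 2 * Real.cos (phi N j) := by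
    rw [Complex.cos_zero, mul_one]
    rw [show (2 : ℂ) + 2 * (Real.cos (phi N j) : ℂ) = ((2 + 2 * Real.cos (phi N j) : ℝ) : ℂ) by
      push_cast; ring]
    rw [Complex.norm_real, Real.norm_eq_abs, abs_of_nonneg (by linarith)]
  rw [h5]
  refine h4.trans ?_
  norm_num
  linarith

/-- the step for large `d` -/
theorem Rp_step {N j : ℕ} (hN : 100 ≤ N) (h1 : (8 / 25 : ℝ) * N - 1 ≤ j) (h2 : 2 * (j + 1) ≤ N)
    {ψ : ℂ} (ha : |ψ.re| < 21 / 20) (hb : |ψ.im| < 1 / 4) :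
    ‖2 * Complex.cos ψ + 2 * (Real.cos (phi N j) : ℂ)‖ ≤
      (2 * Real.sin (π * (j + 1) / N)) ^ 2 := by
  have hp := Real.pi_gt_d4
  have hp' := Real.pi_lt_d4
  have hN' : (100 : ℝ) ≤ N := by exact_mod_cast hN
  have hN0 : (0 : ℝ) < N := by linarith
  have h2' : (2 : ℝ) * (j + 1) ≤ N := by exact_mod_cast h2
  have e1 : (2 * Real.sin (π * (j + 1) / N)) ^ 2 = 2 - 2 * Real.cos (2 * (π * (j + 1) / N)) := by
    rw [Real.cos_two_mul, Real.cos_sq']
    ring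
  have q1 : phi N j ≤ 2 * (π * (j + 1) / N) := by
    unfold phi
    rw [← mul_div_assoc, div_le_div_iff_of_pos_right hN0]
    nlinarith
  have q2 : 2 * (π * (j + 1) / N) ≤ π := by
    rw [← mul_div_assoc, div_le_iff₀ hN0]
    nlinarith
  have q3 : 1.9 ≤ phi N j := by
    unfold phi
    rw [le_div_iff₀ hN0]
    nlinarith
  have q4 : Real.cos (2 * (π * (j + 1) / N)) ≤ Real.cos (phi N j) :=
    Real.cos_le_cos_of_nonneg_of_le_pi (by linarith) q2 q1
  have q5 : Real.cos (phi N j) ≤ -0.3 := by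
    have h3 : Real.cos (phi N j) ≤ Real.cos 1.9 :=
      Real.cos_le_cos_of_nonneg_of_le_pi (by norm_num) (q1.trans q2) q3
    have h4 : Real.cos 1.9 = -Real.sin (1.9 - π / 2) := by
      rw [Real.sin_sub_pi_div_two, neg_neg]
    have h5 := Real.sin_gt_sub_cube (x := 1.9 - π / 2) (by linarith)
    have h6 : 0.3292 ≤ 1.9 - π / 2 := by linarith
    have h7 : 1.9 - π / 2 ≤ 0.3293 := by linarith
    have h8 : (1.9 - π / 2) ^ 3 ≤ 0.3293 ^ 3 := pow_le_pow_left₀ (by linarith) h7 3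
    norm_num at h8 h3 h4 h5 ⊢
    linarith
  set c := Real.cos (phi N j) with hc
  have hc1 : -1 ≤ c := Real.neg_one_le_cos _
  have hu := cos_re_ge ha
  have hv := cos_im_le ha hb
  have hu1 : (Complex.cos ψ).re ≤ 1.0325 := (Complex.re_le_norm _).trans (norm_cos_le hb)
  rw [e1]
  have h3 : ‖Complex.cos ψ + (c : ℂ)‖ ≤ 1 - c := by
    apply abs_le_of_sq_le_sq' _ (by linarith) |>.2
    rw [← Complex.normSq_eq_norm_sq, Complex.normSq_apply, Complex.add_re, Complex.add_im,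
      Complex.ofReal_re, Complex.ofReal_im, add_zero]
    have h4 : (Complex.cos ψ).im * (Complex.cos ψ).im ≤ 0.2237 * 0.2237 := by
      rw [← abs_mul_abs_self]
      exact mul_le_mul hv hv (abs_nonneg _) (by norm_num)
    nlinarith
  have h5 : 2 * Complex.cos ψ + 2 * (c : ℂ) = 2 * (Complex.cos ψ + c) := by ring
  rw [h5, norm_mul, Complex.norm_ofNat]
  linarith

theorem Rp_large {N : ℕ} (hN : 100 ≤ N) {d₀ : ℕ} (h1 : (8 / 25 : ℝ) * N - 1 ≤ d₀)
    {ψ : ℂ} (ha : |ψ.re| < 21 / 20) (hb : |ψ.im| < 1 / 4) {E : ℝ}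
    (hE : ‖Rp N d₀ ψ‖ ≤ Sd N d₀ ^ 2 * E) :
    ∀ d : ℕ, d₀ ≤ d → 2 * d ≤ N → ‖Rp N d ψ‖ ≤ Sd N d ^ 2 * E := by
  intro d hd
  induction d, hd using Nat.le_induction with
  | base => exact fun _ => hE
  | succ d hd ih =>
    intro h2
    have h3 := ih (by omega)
    have h4 : (8 / 25 : ℝ) * N - 1 ≤ d := h1.trans (by exact_mod_cast hd)
    have h5 := Rp_step hN h4 h2 ha hb
    have e1 : Rp N (d + 1) ψ = Rp N d ψ * (2 * Complex.cos ψ + 2 * (Real.cos (phi N d) : ℂ)) := by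
      unfold Rp
      rw [Finset.prod_range_succ]
    have e2 : Sd N (d + 1) = Sd N d * (2 * Real.sin (π * (d + 1) / N)) := by
      unfold Sd
      rw [Finset.prod_range_succ]
    rw [e1, e2, norm_mul, mul_pow]
    calc ‖Rp N d ψ‖ * ‖2 * Complex.cos ψ + 2 * (Real.cos (phi N d) : ℂ)‖ ≤
        (Sd N d ^ 2 * E) * (2 * Real.sin (π * (d + 1) / N)) ^ 2 :=
          mul_le_mul h3 h5 (norm_nonneg _) (le_trans (norm_nonneg _) h3)
      _ = Sd N d ^ 2 * (2 * Real.sin (π * (d + 1) / N)) ^ 2 * E := by ring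

/-! ### The middle part -/

theorem Rp_mid (hL : S_LAPL) {V : Set ℂ} (hV : IsCompact V) (hVa : ∀ ψ ∈ V, |ψ.re| < 21 / 20)
    {a ε : ℝ} (ha : 0 < a) (ha' : a ≤ 8 / 25) (hε : 0 < ε) : ∀ᶠ N : ℕ in atTop, ∀ ψ ∈ V, ∀ d : ℕ,
    a ≤ (d : ℝ) / N → (d : ℝ) / N ≤ 8 / 25 →
    ‖Rp N d ψ‖ ≤ Sd N d ^ 2 * Real.exp (N * ((RR ((d : ℝ) / N : ℝ) ψ).re -
      2 * ((LS (π * ((d : ℝ) / N : ℝ))).re / π) + ε)) := by
  obtain ⟨r, s, h1, h2, h3, h4, h5, h6⟩ := hL
  have hp := Real.pi_gt_d4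
  have hp' := Real.pi_lt_d4
  set K : Set (ℂ × ℂ) := (fun p : ℝ × ℂ => ((p.1 : ℂ), p.2)) '' (Set.Icc 0 (8 / 25) ×ˢ V) with hK
  have hKc : IsCompact K := by
    apply (isCompact_Icc.prod hV).image
    fun_prop
  have hKs : K ⊆ DA := by
    rintro _ ⟨⟨x, ψ⟩, ⟨hx, hψ⟩, rfl⟩
    simp only [DA, Set.mem_ofPred_eq, Complex.ofReal_re]
    have := hVa ψ hψ
    rw [abs_of_nonneg hx.1]
    have h7 := hx.2
    simp only at h7
    nlinarith [Real.pi_pos]
  set K' : Set ℂ := (fun x : ℝ => (x : ℂ)) '' (Set.Icc a (8 / 25)) with hK'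
  have hKc' : IsCompact K' := isCompact_Icc.image Complex.continuous_ofReal
  have hKs' : K' ⊆ {δ : ℂ | 0 < δ.re ∧ δ.re < 1} := by
    rintro _ ⟨x, hx, rfl⟩
    simp only [Set.mem_ofPred_eq, Complex.ofReal_re]
    exact ⟨lt_of_lt_of_le ha hx.1, by linarith [hx.2]⟩
  have u1 := Metric.tendstoUniformlyOn_iff.1 (h5 K hKs hKc) (ε / 4) (by positivity)
  have u2 := Metric.tendstoUniformlyOn_iff.1 (h6 K' hKs' hKc') (ε / 4) (by positivity)
  filter_upwards [u1, u2, eventually_ge_atTop 1] with N u1 u2 hN ψ hψ d hd0 hd1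
  have hN0 : (0 : ℝ) < N := by exact_mod_cast hN
  have hd : 1 ≤ d := by
    by_contra h
    have : d = 0 := by omega
    rw [this, Nat.cast_zero, zero_div] at hd0
    linarith
  have hdN : d < N := by
    have : (d : ℝ) < N := by
      rw [div_le_iff₀ hN0] at hd1
      linarith
    exact_mod_cast this
  have ec : ((d : ℂ) / N) = (((d : ℝ) / N : ℝ) : ℂ) := by push_cast; rfl
  have hmem : ((d : ℂ) / N, ψ) ∈ K := ⟨((d : ℝ) / N, ψ), ⟨⟨by positivity, hd1⟩, hψ⟩, by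
    simp only [ec]⟩
  have hmem' : (d : ℂ) / N ∈ K' := ⟨(d : ℝ) / N, ⟨hd0, hd1⟩, by rw [ec]⟩
  have a1 := u1 _ hmem
  have a2 := u2 _ hmem'
  rw [dist_eq_norm] at a1 a2
  have b1 := h3 N d hN ψ (hKs hmem)
  have b2 := h4 N d hd hdN
  have c1 : (r N ((d : ℂ) / N, ψ)).re ≤ (RR ((d : ℂ) / N) ψ).re + ε / 4 := by
    have := (Complex.abs_re_le_norm _).trans a1.le
    rw [Complex.sub_re, abs_le] at this
    simp only at this
    linarith [this.1]
  have c2 : (LS (π * ((d : ℂ) / N)) / π).re - ε / 4 ≤ (s N ((d : ℂ) / N)).re := by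
    have := (Complex.abs_re_le_norm _).trans a2.le
    rw [Complex.sub_re, abs_le] at this
    linarith [this.2]
  have n1 : ‖Rp N d ψ‖ = Real.exp (N * (r N ((d : ℂ) / N, ψ)).re) := by
    rw [b1, Complex.norm_exp]
    congr 1
    rw [show ((N : ℂ)) = ((N : ℝ) : ℂ) by push_cast; rfl, Complex.re_ofReal_mul]
  have n2 : Sd N d = Real.exp (N * (s N ((d : ℂ) / N)).re) := by
    have h7 := Pool.Agent.W688.HT.Sd_pos hdN
    have h8 : ‖(Sd N d : ℂ)‖ = Sd N d := by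
      rw [Complex.norm_real, Real.norm_eq_abs, abs_of_pos h7]
    rw [← h8, b2, Complex.norm_exp]
    congr 1
    rw [show ((N : ℂ)) = ((N : ℝ) : ℂ) by push_cast; rfl, Complex.re_ofReal_mul]
  have n3 : (LS (π * ((d : ℂ) / N)) / π).re = (LS (π * (((d : ℝ) / N : ℝ) : ℂ))).re / π := by
    rw [ec, Complex.div_ofReal_re]
  rw [n3] at c2
  rw [ec] at c1 c2 n1 n2
  rw [n1, n2, ← Real.exp_nat_mul, ← Real.exp_add, Real.exp_le_exp]
  set A := (r N ((((d : ℝ) / N : ℝ) : ℂ), ψ)).re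
  set B := (s N (((d : ℝ) / N : ℝ) : ℂ)).re
  set C := (RR (((d : ℝ) / N : ℝ) : ℂ) ψ).re
  set D := (LS (π * (((d : ℝ) / N : ℝ) : ℂ))).re / π
  have h9 : A ≤ 2 * B + (C - 2 * D + ε) := by linarith
  have h10 := mul_le_mul_of_nonneg_left h9 hN0.le
  push_cast
  linarith

/-! ### The lower half of the kernel -/

/-- one term -/
theorem term_le {N d : ℕ} (hd : d < N) {ψ φ : ℂ} {A B : ℝ}
    (h1 : ‖Rp N d ψ‖ ≤ Sd N d ^ 2 * Real.exp A) (h2 : ‖Rp N d φ‖ ≤ Sd N d ^ 2 * Real.exp B) :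
    ‖Rp N d ψ * Rp N d φ / (Sd N d : ℂ) ^ 4‖ ≤ Real.exp (A + B) := by
  have hS := Pool.Agent.W688.HT.Sd_pos hd
  rw [norm_div, norm_mul, norm_pow, Complex.norm_real, Real.norm_eq_abs, abs_of_pos hS,
    div_le_iff₀ (by positivity)]
  calc ‖Rp N d ψ‖ * ‖Rp N d φ‖ ≤ (Sd N d ^ 2 * Real.exp A) * (Sd N d ^ 2 * Real.exp B) :=
        mul_le_mul h1 h2 (norm_nonneg _) (by positivity)
    _ = Real.exp (A + B) * Sd N d ^ 4 := by rw [Real.exp_add]; ring

theorem sum_le {s : Finset ℕ} {N : ℕ} {f : ℕ → ℂ} {A : ℝ} (hs : s.card ≤ N)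
    (h : ∀ d ∈ s, ‖f d‖ ≤ Real.exp A) : ‖∑ d ∈ s, f d‖ ≤ N * Real.exp A := by
  calc ‖∑ d ∈ s, f d‖ ≤ ∑ d ∈ s, ‖f d‖ := norm_sum_le _ _
    _ ≤ ∑ d ∈ s, Real.exp A := Finset.sum_le_sum h
    _ = s.card * Real.exp A := by rw [Finset.sum_const, nsmul_eq_mul]
    _ ≤ N * Real.exp A := mul_le_mul_of_nonneg_right (by exact_mod_cast hs) (Real.exp_pos _).le

/-- the real part of the potential -/
theorem TH_re (ψ : ℂ) {δ : ℝ} (h0 : 0 ≤ δ) (h1 : δ ≤ 8 / 25) :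
    (RR (δ : ℝ) ψ).re - 2 * ((LS (π * (δ : ℝ))).re / π) + bb δ 1 = (TH ψ 1 δ).re := by
  have hp' := Real.pi_lt_d4
  have h2 := bb_RR (δ := δ) (x := 1) h0 (by rw [abs_one]; nlinarith [Real.pi_pos, Real.pi_gt_d4])
  rw [h2]
  unfold TH
  have e : (4 * (LS (π * (δ : ℂ)) / (π : ℂ))).re = 4 * ((LS (π * (δ : ℂ))).re / π) := by
    rw [show (4 : ℂ) * (LS (π * (δ : ℂ)) / (π : ℂ)) = ((4 / π : ℝ) : ℂ) * LS (π * (δ : ℂ)) by
      push_cast; ring, Complex.re_ofReal_mul]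
    ring
  rw [Complex.sub_re, Complex.add_re, e, Complex.ofReal_one]
  ring

theorem k0_bound (hL : S_LAPL) (hA : ∀ δ x y : ℝ, 0 ≤ δ → δ ≤ 1 / 2 → 0 ≤ x → x ≤ |y| →
    |y| ≤ π → bb δ y ≤ bb δ x) {V : Set ℂ} (hV : IsCompact V) (hVa : ∀ ψ ∈ V, |ψ.re| < 21 / 20)
    (hVb : ∀ ψ ∈ V, |ψ.im| < 1 / 4) (m : ℂ → ℝ) (hm : ∀ ψ ∈ V, ∀ x : ℝ, 0 < x → x ≤ 8 / 25 →
    (TH ψ 1 x).re ≤ m ψ) (hm' : ∀ ψ ∈ V, 1 / 2 ≤ m ψ) {ε : ℝ} (hε : 0 < ε) :
    ∃ τ : ℝ, 0 < τ ∧ ∀ᶠ N : ℕ in atTop, ∀ ψ ∈ V, ∀ x y : ℝ, 1 ≤ |x| → |x| ≤ π → |y| ≤ τ →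
      ‖k0 N ψ (x + y * Complex.I)‖ ≤ N * Real.exp (N * (m ψ + ε)) := by
  have hp := Real.pi_gt_d4
  obtain ⟨τ, hτ, H0⟩ := Pool.Agent.W688.HT.b0 (ε / 4) (by positivity)
  obtain ⟨δ₀, hδ₀, B0⟩ := bb_small 0 (η := 1 / 8) (by norm_num)
  obtain ⟨δ₁, hδ₁, B1⟩ := bb_small 1 (η := 1 / 8) (by norm_num)
  set a := min (min δ₀ δ₁) (1 / 4) with ha
  have ha0 : 0 < a := lt_min (lt_min hδ₀ hδ₁) (by norm_num)
  have ha1 : a ≤ 1 / 4 := min_le_right _ _
  have ha2 : a ≤ δ₀ := (min_le_left _ _).trans (min_le_left _ _)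
  have ha3 : a ≤ δ₁ := (min_le_left _ _).trans (min_le_right _ _)
  have H1 := Rp_mid hL hV hVa (a := a) (ε := ε / 4) ha0 (by linarith) (by positivity)
  refine ⟨τ, hτ, ?_⟩
  filter_upwards [H0, H1, eventually_ge_atTop 100] with N H0 H1 hN ψ hψ x y hx1 hx2 hy
  have hN0 : (0 : ℝ) < N := by
    have : (100 : ℝ) ≤ N := by exact_mod_cast hN
    linarith
  have hN1 : (100 : ℝ) ≤ N := by exact_mod_cast hN
  have hm1 := hm' ψ hψ
  have hψa := hVa ψ hψ
  have hψb := hVb ψ hψ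
  unfold k0
  apply sum_le
  · rw [Finset.card_range]; omega
  intro d hd
  rw [Finset.mem_range] at hd
  have hdN : d < N := by omega
  have h2d : 2 * d ≤ N := by omega
  have hδ0 : (0 : ℝ) ≤ (d : ℝ) / N := by positivity
  have hδ : (d : ℝ) / N ≤ 1 / 2 := by
    rw [div_le_iff₀ hN0]
    have h3 : (2 : ℝ) * d ≤ N := by exact_mod_cast h2d
    linarith
  have hw := H0 d hdN x y hx2 hy
  have hbb := hA ((d : ℝ) / N) 1 x hδ0 hδ zero_le_one hx1 hx2
  rcases le_total ((d : ℝ) / N) a with hda | hda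
  · -- small `d`
    have h4d : 4 * d ≤ N := by
      have h3 := hda.trans ha1
      rw [div_le_iff₀ hN0] at h3
      have h4 : (4 : ℝ) * d ≤ N := by linarith
      exact_mod_cast h4
    have c1 := Rp_small h4d hψb
    have c2 := H0 d hdN 0 0 (by rw [abs_zero]; exact Real.pi_pos.le) (by rw [abs_zero]; exact hτ.le)
    have e0 : ((0 : ℝ) : ℂ) + ((0 : ℝ) : ℂ) * Complex.I = 0 := by simp
    rw [e0] at c2
    have c3 : ((11 / 10 : ℝ)) ^ d ≤ Real.exp (N * ((d : ℝ) / N / 10)) := by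
      have h5 : (11 / 10 : ℝ) ≤ Real.exp (1 / 10) := by
        have := Real.add_one_le_exp (1 / 10 : ℝ)
        linarith
      have h6 : (N : ℝ) * ((d : ℝ) / N / 10) = d * (1 / 10) := by
        field_simp
      rw [h6, Real.exp_nat_mul]
      exact pow_le_pow_left₀ (by norm_num) h5 d
    have c4 : ‖Rp N d ψ‖ ≤ Sd N d ^ 2 * Real.exp (N * ((d : ℝ) / N / 10) +
        N * (bb ((d : ℝ) / N) 0 + ε / 4)) := by
      refine c1.trans ?_
      rw [Real.exp_add]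
      calc (11 / 10 : ℝ) ^ d * ‖Rp N d 0‖ ≤ Real.exp (N * ((d : ℝ) / N / 10)) *
          (Sd N d ^ 2 * Real.exp (N * (bb ((d : ℝ) / N) 0 + ε / 4))) :=
            mul_le_mul c3 c2 (norm_nonneg _) (Real.exp_pos _).le
        _ = _ := by ring
    refine (term_le hdN c4 hw).trans ?_
    rw [Real.exp_le_exp]
    have k1 := B0 _ hδ0 (hda.trans ha2)
    have k2 := B1 _ hδ0 (hda.trans ha3)
    rw [← mul_add, ← mul_add]
    apply mul_le_mul_of_nonneg_left _ hN0.le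
    linarith
  rcases le_total ((d : ℝ) / N) (8 / 25) with hdb | hdb
  · -- the middle part
    have c1 := H1 ψ hψ d hda hdb
    refine (term_le hdN c1 hw).trans ?_
    rw [Real.exp_le_exp, ← mul_add]
    apply mul_le_mul_of_nonneg_left _ hN0.le
    have k1 := TH_re ψ hδ0 hdb
    have k2 := hm ψ hψ ((d : ℝ) / N) (lt_of_lt_of_le ha0 hda) hdb
    linarith
  · -- large `d`
    set d₀ := ⌊(8 / 25 : ℝ) * N⌋₊ with hd₀
    have f1 : (d₀ : ℝ) ≤ 8 / 25 * N := Nat.floor_le (by positivity)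
    have f2 : (8 / 25 : ℝ) * N - 1 ≤ d₀ := by
      have := Nat.lt_floor_add_one ((8 / 25 : ℝ) * N)
      rw [← hd₀] at this
      linarith
    have f3 : (d₀ : ℝ) / N ≤ 8 / 25 := by rw [div_le_iff₀ hN0]; exact f1
    have f4 : 1 / 4 ≤ (d₀ : ℝ) / N := by rw [le_div_iff₀ hN0]; linarith
    have f5 : d₀ ≤ d := by
      rw [le_div_iff₀ hN0] at hdb
      have : (d₀ : ℝ) ≤ d := f1.trans hdb
      exact_mod_cast this
    have c1 := Rp_large hN f2 hψa hψb (H1 ψ hψ d₀ (ha1.trans f4) f3) d f5 h2d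
    refine (term_le hdN c1 hw).trans ?_
    rw [Real.exp_le_exp, ← mul_add]
    apply mul_le_mul_of_nonneg_left _ hN0.le
    have k1 := TH_re ψ (δ := (d₀ : ℝ) / N) (by positivity) f3
    have k2 := hm ψ hψ ((d₀ : ℝ) / N) (by linarith) f3
    have k3 := bb_dec (x := 1) f4 (f3.trans hdb) hδ
    linarith

theorem k0_bound2 (hA : ∀ δ x y : ℝ, 0 ≤ δ → δ ≤ 1 / 2 → 0 ≤ x → x ≤ |y| →
    |y| ≤ π → bb δ y ≤ bb δ x) (m : ℝ) (hm : ∀ x : ℝ, 0 < x → x ≤ 8 / 25 →
    (TH 1 1 x).re ≤ m) (hm' : 1 / 2 ≤ m) {ε : ℝ} (hε : 0 < ε) :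
    ∃ τ : ℝ, 0 < τ ∧ ∀ᶠ N : ℕ in atTop, ∀ x y x' y' : ℝ, 1 ≤ |x| → |x| ≤ π → |y| ≤ τ →
      1 ≤ |x'| → |x'| ≤ π → |y'| ≤ τ →
      ‖k0 N (x' + y' * Complex.I) (x + y * Complex.I)‖ ≤ N * Real.exp (N * (m + ε)) := by
  have hp := Real.pi_gt_d4
  have hp' := Real.pi_lt_d4
  obtain ⟨τ, hτ, H0⟩ := Pool.Agent.W688.HT.b0 (ε / 4) (by positivity)
  have key : ∀ δ : ℝ, 0 < δ → δ ≤ 8 / 25 → bb δ 1 + bb δ 1 ≤ m := by
    intro δ h0 h1
    have h2 := TH_re 1 h0.le h1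
    have h3 := hm δ h0 h1
    have h4 := bb_RR (δ := δ) (x := 1) h0.le (by rw [abs_one]; nlinarith)
    rw [Complex.ofReal_one] at h4
    linarith
  have key' : ∀ δ : ℝ, 0 ≤ δ → δ ≤ 1 / 2 → bb δ 1 + bb δ 1 ≤ m := by
    intro δ h0 h1
    rcases h0.eq_or_lt with h | h
    · have : bb δ 1 = 0 := by
        rw [← h]
        unfold bb
        exact intervalIntegral.integral_same
      rw [this]; linarith
    rcases le_total δ (8 / 25) with h2 | h2
    · exact key δ h h2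
    · have h3 := bb_dec (a := 8 / 25) (b := δ) (x := 1) (by norm_num) h2 h1
      have h4 := key (8 / 25) (by norm_num) le_rfl
      linarith
  refine ⟨τ, hτ, ?_⟩
  filter_upwards [H0, eventually_ge_atTop 1] with N H0 hN x y x' y' hx1 hx2 hy hx1' hx2' hy'
  have hN0 : (0 : ℝ) < N := by exact_mod_cast hN
  unfold k0
  apply sum_le
  · rw [Finset.card_range]; omega
  intro d hd
  rw [Finset.mem_range] at hd
  have hdN : d < N := by omega
  have h2d : 2 * d ≤ N := by omega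
  have hδ0 : (0 : ℝ) ≤ (d : ℝ) / N := by positivity
  have hδ : (d : ℝ) / N ≤ 1 / 2 := by
    rw [div_le_iff₀ hN0]
    have h3 : (2 : ℝ) * d ≤ N := by exact_mod_cast h2d
    linarith
  have hb1 := hA ((d : ℝ) / N) 1 x hδ0 hδ zero_le_one hx1 hx2
  have hb2 := hA ((d : ℝ) / N) 1 x' hδ0 hδ zero_le_one hx1' hx2'
  refine (term_le hdN (H0 d hdN x' y' hx2' hy') (H0 d hdN x y hx2 hy)).trans ?_
  rw [Real.exp_le_exp, ← mul_add]
  apply mul_le_mul_of_nonneg_left _ hN0.le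
  have := key' _ hδ0 hδ
  linarith

end Pool.Agent.N160.EK
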