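import Pool.Agent.N561.EK.Stm
import Pool.Agent.N855.VS.RB
import Pool.Agent.N160.EK.KfrB

/-!
# EK/9: bounds of the kernel beyond the ends of the paths
-/

set_option autoImplicit false

namespace Pool.Agent.N160.EK

open Filter hiding ker
open Finset Topology Metric
open Pool.Agent.W711.HT hiding XX
open Pool.Agent.N561 Pool.Agent.N561.EK
open scoped Real

theorem convex_DD : Convex ℝ DD := by
  have h1 : DD = (Set.Ioo (-(21 / 20 : ℝ)) (21 / 20)) ×ℂ (Set.Ioo (-(1 / 4 : ℝ)) (1 / 4)) := by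
    ext w
    simp only [DD, Set.mem_ofPred_eq, Complex.mem_reProdIm, Set.mem_Ioo, abs_lt]
  rw [h1]
  exact (Convex.linear_preimage (convex_Ioo (-(21 / 20 : ℝ)) (21 / 20)) Complex.reLm).inter
    (Convex.linear_preimage (convex_Ioo (-(1 / 4 : ℝ)) (1 / 4)) Complex.imLm)

theorem zero_mem : (0 : ℂ) ∈ DD := by
  constructor
  · rw [Complex.zero_re, abs_zero]; norm_num
  · rw [Complex.zero_im, abs_zero]; norm_num

theorem one_mem : (1 : ℂ) ∈ DD := by
  constructor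
  · rw [Complex.one_re, abs_one]; norm_num
  · rw [Complex.one_im, abs_zero]; norm_num

theorem norm_DD {ψ : ℂ} (h : ψ ∈ DD) : ‖ψ‖ ^ 2 ≤ 1.165 := by
  rw [← Complex.normSq_eq_norm_sq, Complex.normSq_apply, ← abs_mul_abs_self ψ.re,
    ← abs_mul_abs_self ψ.im]
  have h1 := h.1
  have h2 := h.2
  have h3 : |ψ.re| * |ψ.re| ≤ 21 / 20 * (21 / 20) :=
    mul_le_mul h1.le h1.le (abs_nonneg _) (by norm_num)
  have h4 : |ψ.im| * |ψ.im| ≤ 1 / 4 * (1 / 4) :=
    mul_le_mul h2.le h2.le (abs_nonneg _) (by norm_num)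
  norm_num at h3 h4 ⊢
  linarith

/-- the growth of the potential -/
theorem sg_diff (P : POT) (M : MUL) {ψ φ : ℂ} (hψ : ψ ∈ DD) (hφ : φ ∈ DD) :
    ‖sg ψ φ - sg 0 φ‖ ≤ 5 / 4 * ‖ψ‖ ^ 2 / (2 * π) := by
  have hp := Real.pi_pos
  have hconv : Convex ℝ (DD ∩ Metric.closedBall 0 ‖ψ‖) := convex_DD.inter (convex_closedBall _ _)
  have h := hconv.norm_image_sub_le_of_norm_hasDerivWithin_le (f := fun w => sg w φ)
    (f' := fun w => s1 w φ) (C := 5 / 4 * ‖ψ‖ / (2 * π)) (x := 0) (y := ψ)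
    (fun w hw => (P.d1 w hw.1 φ hφ).differentiableAt.hasDerivAt.hasDerivWithinAt)
    (fun w hw => by
      have h1 := M.mD w hw.1 φ hφ
      have h2 : ‖w‖ ≤ ‖ψ‖ := by
        have := hw.2
        rwa [mem_closedBall, dist_zero_right] at this
      have h3 : ‖w / (2 * π)‖ = ‖w‖ / (2 * π) := by
        rw [norm_div, norm_mul, Complex.norm_ofNat, Complex.norm_real, Real.norm_eq_abs,
          abs_of_pos hp]
      have h4 : ‖s1 w φ‖ ≤ ‖s1 w φ + w / (2 * π)‖ + ‖w / (2 * π)‖ := by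
        have := norm_sub_le (s1 w φ + w / (2 * π)) (w / (2 * π))
        rwa [add_sub_cancel_right] at this
      rw [h3] at h4
      have h5 : 5 / 4 * ‖w‖ / (2 * π) ≤ 5 / 4 * ‖ψ‖ / (2 * π) := by gcongr
      have h6 : 1 / 4 * ‖w‖ / (2 * π) + ‖w‖ / (2 * π) = 5 / 4 * ‖w‖ / (2 * π) := by ring
      linarith)
    ⟨zero_mem, by rw [mem_closedBall, dist_self]; exact norm_nonneg _⟩
    ⟨hψ, by rw [mem_closedBall, dist_zero_right]⟩
  rw [sub_zero] at h
  refine h.trans (le_of_eq ?_)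
  ring

theorem sg_ge (P : POT) (M : MUL) {ψ : ℂ} (hψ : ψ ∈ DD) : 1 / 2 ≤ (sg ψ 1).re := by
  have hp := Real.pi_gt_d4
  have h1 := (Complex.abs_re_le_norm _).trans (sg_diff P M hψ one_mem)
  have h2 := (Complex.abs_re_le_norm _).trans (sg_diff P M one_mem zero_mem)
  rw [P.sym 1 0] at h2
  rw [Complex.sub_re, abs_le] at h1 h2
  have h3 := P.zero
  rw [h3, Complex.ofReal_re] at h2
  have h4 := norm_DD hψ
  rw [norm_one, one_pow] at h2
  have h5 := bet_ge
  have h6 : 5 / 4 * ‖ψ‖ ^ 2 / (2 * π) ≤ 0.25 := by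
    rw [div_le_iff₀ (by positivity)]
    norm_num at h4 ⊢
    nlinarith
  have h7 : 5 / 4 * 1 / (2 * π) ≤ 0.2 := by
    rw [div_le_iff₀ (by positivity)]
    norm_num
    linarith
  norm_num at h5 h6 h7 ⊢
  linarith [h1.1, h2.1]

theorem real_bd (P : POT) (T : THS) {ψ : ℂ} (hψ : ψ ∈ DD) {x : ℝ} (h0 : 0 < x)
    (h1 : x ≤ 8 / 25) : (TH ψ 1 x).re ≤ (sg ψ 1).re + 1 / 100 :=
  real_bound hψ.1 hψ.2 (P.dcr ψ hψ 1 one_mem) (P.dcos ψ hψ 1 one_mem) (T.pos ψ hψ 1 one_mem).1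
    (T.pos ψ hψ 1 one_mem).2.1 h0 h1

/-- the two halves -/
theorem combine {N : ℕ} {a b : ℂ} {m ε : ℝ} (hN : 1 ≤ N)
    (h1 : ‖b‖ ≤ N * Real.exp (N * (m + ε / 2))) (h2 : ‖a - b‖ ≤ Real.exp (N * (m + ε / 2)))
    (h3 : (2 : ℝ) * N ≤ Real.exp (N * (ε / 2))) : ‖a‖ ≤ Real.exp (N * (m + ε)) := by
  have hN' : (1 : ℝ) ≤ N := by exact_mod_cast hN
  have h4 := norm_add_le (a - b) b
  rw [sub_add_cancel] at h4
  have hE := Real.exp_pos (N * (m + ε / 2))
  have e1 : Real.exp (N * (m + ε)) = Real.exp (N * (ε / 2)) * Real.exp (N * (m + ε / 2)) := by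
    rw [← Real.exp_add]; congr 1; ring
  rw [e1]
  have h5 := mul_le_mul_of_nonneg_right h3 hE.le
  nlinarith

/-- **EK/9** -/
theorem kfr (hH : S_HES) (hM : S_MUL) : S_KFR := by
  intro P T K
  have M : MUL := hM P hH
  have hA : ∀ δ x y : ℝ, 0 ≤ δ → δ ≤ 1 / 2 → 0 ≤ x → x ≤ |y| → |y| ≤ π → bb δ y ≤ bb δ x :=
    fun δ x y h1 h2 h3 h4 h5 => Pool.Agent.N855.VS.bb_anti h1 h2 h3 h4 h5
  constructor
  · intro V hV hVc ε hε
    obtain ⟨τ, hτ, H⟩ := k0_bound Pool.Agent.N207.VS.lapl hA hVc (fun ψ h => (hV h).1)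
      (fun ψ h => (hV h).2) (fun ψ => (sg ψ 1).re + 1 / 100)
      (fun ψ h x h0 h1 => real_bd P T (hV h) h0 h1)
      (fun ψ h => by have := sg_ge P M (hV h); linarith) (ε := ε / 2) (by positivity)
    refine ⟨min τ (1 / 10), lt_min hτ (by norm_num), ?_⟩
    filter_upwards [H, K (1 / 10) (by norm_num), Pool.Agent.N855.VS.lin_exp (ε := ε / 2)
      (by positivity), eventually_ge_atTop 1] with N H K hN2 hN ψ hψ x y h1 h2 h3
    have hN0 : (0 : ℝ) < N := by exact_mod_cast hN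
    refine combine hN (H ψ hψ x y h1 h2 (h3.trans (min_le_left _ _))) ?_ hN2
    refine (K ψ (x + y * Complex.I)).trans ?_
    rw [Real.exp_le_exp]
    apply mul_le_mul_of_nonneg_left _ hN0.le
    have e1 : ((x : ℂ) + y * Complex.I).im = y := by simp
    rw [e1]
    have k1 := (hV hψ).2
    have k2 := h3.trans (min_le_right _ _)
    have k3 := sg_ge P M (hV hψ)
    linarith
  · intro ε hε
    obtain ⟨τ, hτ, H⟩ := k0_bound2 hA ((sg 1 1).re + 1 / 100)
      (fun x h0 h1 => real_bd P T one_mem h0 h1)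
      (by have := sg_ge P M one_mem; linarith) (ε := ε / 2) (by positivity)
    refine ⟨min τ (1 / 10), lt_min hτ (by norm_num), ?_⟩
    filter_upwards [H, K (1 / 10) (by norm_num), Pool.Agent.N855.VS.lin_exp (ε := ε / 2)
      (by positivity), eventually_ge_atTop 1] with N H K hN2 hN x y x' y' h1 h2 h3 h1' h2' h3'
    have hN0 : (0 : ℝ) < N := by exact_mod_cast hN
    refine combine hN (H x y x' y' h1 h2 (h3.trans (min_le_left _ _)) h1' h2'
      (h3'.trans (min_le_left _ _))) ?_ hN2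
    refine (K (x' + y' * Complex.I) (x + y * Complex.I)).trans ?_
    rw [Real.exp_le_exp]
    apply mul_le_mul_of_nonneg_left _ hN0.le
    have e1 : ((x : ℂ) + y * Complex.I).im = y := by simp
    have e2 : ((x' : ℂ) + y' * Complex.I).im = y' := by simp
    rw [e1, e2]
    have k2 := h3.trans (min_le_right _ _)
    have k2' := h3'.trans (min_le_right _ _)
    have k3 := sg_ge P M one_mem
    linarith

end Pool.Agent.N160.EK
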