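import Pool.Agent.N119.VS.Flat

/-!
# EK/9, part 1: the potential of the sum over `d` on the real axis

The real part of `TH ψ 1 δ`, `δ` real, is at most `Re sg ψ 1 + 1 / 100`.
-/

set_option autoImplicit false

namespace Pool.Agent.N160.EK

open Filter Topology Metric Set
open Pool.Agent.W711.HT Pool.Agent.N561
open Pool.Agent.N119.VS (WC WS TH_deriv cos_mem sin_mem two_mul_mem cos_re' cos_im' sin_re' sin_im')
open scoped Real

/-! ### Numerical bounds -/

theorem cos_sub_le' (a b : ℝ) : Real.cos a - Real.cos b ≤ |a - b| := by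
  have h := Real.cos_sub_cos a b
  rw [h]
  have h1 : |Real.sin ((a + b) / 2)| ≤ 1 := Real.abs_sin_le_one _
  have h2 : |Real.sin ((a - b) / 2)| ≤ |(a - b) / 2| := Real.abs_sin_le_abs
  have h3 : -2 * Real.sin ((a + b) / 2) * Real.sin ((a - b) / 2) ≤
      |-2 * Real.sin ((a + b) / 2) * Real.sin ((a - b) / 2)| := le_abs_self _
  rw [abs_mul, abs_mul, abs_neg, abs_two] at h3
  rw [abs_div, abs_two] at h2
  nlinarith [abs_nonneg (Real.sin ((a + b) / 2)), abs_nonneg (Real.sin ((a - b) / 2)),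
    abs_nonneg (a - b)]

theorem sin_sub_le' (a b : ℝ) : Real.sin a - Real.sin b ≤ |a - b| := by
  have h := Real.sin_sub_sin a b
  rw [h]
  have h1 : |Real.cos ((a + b) / 2)| ≤ 1 := Real.abs_cos_le_one _
  have h2 : |Real.sin ((a - b) / 2)| ≤ |(a - b) / 2| := Real.abs_sin_le_abs
  have h3 : 2 * Real.sin ((a - b) / 2) * Real.cos ((a + b) / 2) ≤
      |2 * Real.sin ((a - b) / 2) * Real.cos ((a + b) / 2)| := le_abs_self _
  rw [abs_mul, abs_mul, abs_two] at h3
  rw [abs_div, abs_two] at h2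
  nlinarith [abs_nonneg (Real.cos ((a + b) / 2)), abs_nonneg (Real.sin ((a - b) / 2)),
    abs_nonneg (a - b)]

theorem cos_105 : (497 / 1000 : ℝ) ≤ Real.cos (21 / 20) := by
  have h := cos_sub_le' (π / 3) (21 / 20)
  have h4 : |π / 3 - 21 / 20| ≤ 3 / 1000 := by
    have h5 := Real.pi_gt_d4
    have h6 := Real.pi_lt_d4
    rw [abs_le]; constructor <;> linarith
  rw [Real.cos_pi_div_three] at h
  linarith

theorem sin_105 : Real.sin (21 / 20) ≤ 870 / 1000 := by
  have h := sin_sub_le' (21 / 20) (π / 3)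
  have h4 : |21 / 20 - π / 3| ≤ 3 / 1000 := by
    have h5 := Real.pi_gt_d4
    have h6 := Real.pi_lt_d4
    rw [abs_le]; constructor <;> linarith
  rw [Real.sin_pi_div_three] at h
  have h7 : √3 ≤ 1.7330 := by
    rw [Real.sqrt_le_left (by norm_num)]
    norm_num
  linarith

theorem cos_one_ge : (54 / 100 : ℝ) ≤ Real.cos 1 := by
  have h5 := Real.pi_gt_d4
  have h6 := Real.pi_lt_d4
  set h := π / 3 - 1 with hh
  have e : Real.cos 1 = Real.cos (π / 3) * Real.cos h + Real.sin (π / 3) * Real.sin h := by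
    rw [← Real.cos_sub]; congr 1; rw [hh]; ring
  have h1 : 471 / 10000 ≤ h := by rw [hh]; linarith
  have h2 : h ≤ 473 / 10000 := by rw [hh]; linarith
  have h3 := Real.sin_gt_sub_cube (x := h) (by linarith)
  have h4 := Real.one_sub_sq_div_two_le_cos (x := h)
  have h7 : (1.732 : ℝ) ≤ √3 := by
    apply Real.le_sqrt_of_sq_le
    norm_num
  rw [e, Real.cos_pi_div_three, Real.sin_pi_div_three]
  have h8 : h ^ 2 ≤ 1 / 100 := by nlinarith
  have h9 : h ^ 3 ≤ 1 / 100 * h := by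
    rw [pow_succ]
    exact mul_le_mul_of_nonneg_right h8 (by linarith)
  have h10 : (0 : ℝ) ≤ Real.sin h := by nlinarith
  have h11 : h ^ 2 ≤ 225 / 100000 := by nlinarith
  have h12 : (0.0469 : ℝ) ≤ Real.sin h := by nlinarith
  nlinarith

/-- the sine on `[2 π / 5, 13 π / 25]` -/
theorem sin_ge {x : ℝ} (h1 : 1 / 5 ≤ x) (h2 : x ≤ 13 / 50) : 95 / 100 ≤ Real.sin (2 * π * x) := by
  have h5 := Real.pi_gt_d4
  have h6 := Real.pi_lt_d4
  have e : Real.sin (2 * π * x) = Real.cos (2 * π * x - π / 2) := by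
    rw [Real.cos_sub_pi_div_two]
  rw [e]
  have h3 : 1 - (2 * π * x - π / 2) ^ 2 / 2 ≤ Real.cos (2 * π * x - π / 2) :=
    Real.one_sub_sq_div_two_le_cos
  have h4 : |2 * π * x - π / 2| ≤ 3142 / 10000 := by
    rw [abs_le]; constructor <;> nlinarith
  have h7 : (2 * π * x - π / 2) ^ 2 ≤ (3142 / 10000) ^ 2 := by
    rw [← sq_abs]
    exact pow_le_pow_left₀ (abs_nonneg _) h4 2
  linarith [show ((3142 / 10000 : ℝ)) ^ 2 / 2 ≤ 5 / 100 by norm_num]

theorem cos_ge {x : ℝ} (h1 : 1 / 5 ≤ x) (h2 : x ≤ 13 / 50) :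
    -(63 / 1000) ≤ Real.cos (2 * π * x) := by
  have h5 := Real.pi_gt_d4
  have h6 := Real.pi_lt_d4
  have e : Real.cos (2 * π * x) = Real.sin (π / 2 - 2 * π * x) := by
    rw [Real.sin_pi_div_two_sub]
  rw [e]
  rcases le_total (π / 2 - 2 * π * x) 0 with h | h
  · have h3 : Real.sin (2 * π * x - π / 2) ≤ 2 * π * x - π / 2 := Real.sin_le (by linarith)
    have h4 : Real.sin (π / 2 - 2 * π * x) = -Real.sin (2 * π * x - π / 2) := by
      rw [← Real.sin_neg]; congr 1; ring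
    rw [h4]
    nlinarith
  · have h3 : 0 ≤ Real.sin (π / 2 - 2 * π * x) :=
      Real.sin_nonneg_of_nonneg_of_le_pi h (by nlinarith)
    linarith

theorem cosh_le' {y : ℝ} (h1 : |y| ≤ 1 / 4) : Real.cosh y ≤ 1 + 0.52 * y ^ 2 := by
  have h2 : y ^ 2 ≤ 1 / 16 := by
    rw [← sq_abs]
    have := pow_le_pow_left₀ (abs_nonneg y) h1 2
    norm_num at this ⊢
    exact this
  have h3 := Real.cosh_le_exp_half_sq y
  have h4 := Real.add_one_le_exp (-(y ^ 2 / 2))
  have h5 : Real.exp (y ^ 2 / 2) * Real.exp (-(y ^ 2 / 2)) = 1 := by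
    rw [← Real.exp_add, add_neg_cancel, Real.exp_zero]
  have h6 := Real.exp_pos (y ^ 2 / 2)
  have h7 : Real.exp (y ^ 2 / 2) * (1 - y ^ 2 / 2) ≤ 1 := by
    rw [← h5]
    exact mul_le_mul_of_nonneg_left (by linarith) h6.le
  have h8 : 0 ≤ y ^ 2 := sq_nonneg y
  have h9 : 1 ≤ (1 + 0.52 * y ^ 2) * (1 - y ^ 2 / 2) := by nlinarith
  have h10 : Real.exp (y ^ 2 / 2) ≤ 1 + 0.52 * y ^ 2 := by
    have h11 : 0 < 1 - y ^ 2 / 2 := by linarith
    by_contra hc
    push Not at hc
    have := mul_lt_mul_of_pos_right hc h11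
    linarith
  linarith

theorem sinh_sq_le {y : ℝ} (h1 : |y| ≤ 1 / 4) : Real.sinh y ^ 2 ≤ 1.0571 * y ^ 2 := by
  have h2 : y ^ 2 ≤ 1 / 16 := by
    rw [← sq_abs]
    have := pow_le_pow_left₀ (abs_nonneg y) h1 2
    norm_num at this ⊢
    exact this
  have h3 := cosh_le' h1
  have h4 := Real.cosh_sq y
  have h5 := Real.one_le_cosh y
  have h8 : 0 ≤ y ^ 2 := sq_nonneg y
  nlinarith

theorem sinh_quarter {y : ℝ} (h1 : |y| ≤ 1 / 4) : |Real.sinh y| ≤ 0.2571 := by
  have h2 := sinh_sq_le h1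
  have h3 : y ^ 2 ≤ 1 / 16 := by
    rw [← sq_abs]
    have := pow_le_pow_left₀ (abs_nonneg y) h1 2
    norm_num at this ⊢
    exact this
  apply abs_le_of_sq_le_sq _ (by norm_num)
  norm_num
  linarith

/-! ### Cosines in the domain -/

theorem cos_re_ge {ψ : ℂ} (ha : |ψ.re| < 21 / 20) : 497 / 1000 ≤ (Complex.cos ψ).re := by
  rw [cos_re']
  have h1 : 497 / 1000 ≤ Real.cos ψ.re := by
    rw [← Real.cos_abs]
    refine cos_105.trans (Real.cos_le_cos_of_nonneg_of_le_pi (abs_nonneg _) ?_ ha.le)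
    linarith [Real.pi_gt_three]
  have h2 := Real.one_le_cosh ψ.im
  nlinarith

theorem cos_im_le {ψ : ℂ} (ha : |ψ.re| < 21 / 20) (hb : |ψ.im| < 1 / 4) :
    |(Complex.cos ψ).im| ≤ 0.2237 := by
  rw [cos_im', abs_neg, abs_mul]
  have h1 : |Real.sin ψ.re| ≤ 870 / 1000 := by
    have h3 : |Real.sin ψ.re| = Real.sin |ψ.re| := by
      rcases le_total 0 ψ.re with h | h
      · rw [abs_of_nonneg h, abs_of_nonneg]
        rw [abs_of_nonneg h] at ha
        exact Real.sin_nonneg_of_nonneg_of_le_pi h (by linarith [Real.pi_gt_three])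
      · rw [abs_of_nonpos h, Real.sin_neg, abs_of_nonpos]
        rw [abs_of_nonpos h] at ha
        have := Real.sin_nonneg_of_nonneg_of_le_pi (x := -ψ.re) (by linarith)
          (by linarith [Real.pi_gt_three])
        rw [Real.sin_neg] at this
        linarith
    rw [h3]
    refine le_trans (Real.sin_le_sin_of_le_of_le_pi_div_two ?_ ?_ ha.le) sin_105
    · linarith [Real.pi_gt_three, abs_nonneg ψ.re]
    · linarith [Real.pi_gt_d2]
  have h2 := sinh_quarter hb.le
  calc |Real.sin ψ.re| * |Real.sinh ψ.im| ≤ 870 / 1000 * 0.2571 :=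
        mul_le_mul h1 h2 (abs_nonneg _) (by norm_num)
    _ ≤ 0.2237 := by norm_num

theorem cos_one_c : Complex.cos 1 = ((Real.cos 1 : ℝ) : ℂ) := by
  rw [Complex.ofReal_cos, Complex.ofReal_one]

/-- the imaginary part of the critical point -/
theorem dst_im {ψ δ : ℂ} (ha : |ψ.re| < 21 / 20) (hb : |ψ.im| < 1 / 4)
    (hc : Complex.cos (2 * π * δ) =
      (1 - Complex.cos ψ * Complex.cos 1) / (2 + Complex.cos ψ + Complex.cos 1))
    (h1 : 1 / 5 ≤ δ.re) (h2 : δ.re ≤ 13 / 50) : |δ.im| ≤ 98 / 10000 := by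
  have hu := cos_re_ge ha
  have hv := cos_im_le ha hb
  have hk1 := cos_one_ge
  have hk2 := Real.cos_one_le
  have hp := Real.pi_gt_d4
  set k := Real.cos 1 with hk
  set u := (Complex.cos ψ).re with hu'
  set v := (Complex.cos ψ).im with hv'
  have hre : (2 * π * δ : ℂ).re = 2 * π * δ.re := by simp
  have him : (2 * π * δ : ℂ).im = 2 * π * δ.im := by simp
  have e1 : (Complex.cos (2 * π * δ)).im = -(Real.sin (2 * π * δ.re) * Real.sinh (2 * π * δ.im)) := by
    rw [cos_im', hre, him]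
  have hD0 : 0 < 2 + u + k := by linarith
  have e2 : (Complex.cos (2 * π * δ)).im = -((1 + k) ^ 2 * v / ((2 + u + k) ^ 2 + v ^ 2)) := by
    rw [hc, cos_one_c, ← hk]
    have hD : (2 + Complex.cos ψ + (k : ℂ)) ≠ 0 := by
      intro h
      have := congrArg Complex.re h
      simp only [Complex.add_re, Complex.re_ofNat, Complex.ofReal_re, Complex.zero_re] at this
      rw [← hu'] at this
      linarith
    have e3 : (1 - Complex.cos ψ * (k : ℂ)) / (2 + Complex.cos ψ + (k : ℂ)) =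
        -(k : ℂ) + ((1 + k) ^ 2 : ℝ) / (2 + Complex.cos ψ + (k : ℂ)) := by
      field_simp
      push_cast
      ring
    rw [e3, Complex.add_im, Complex.neg_im, Complex.ofReal_im, neg_zero, zero_add, Complex.div_im,
      Complex.ofReal_re, Complex.ofReal_im, zero_mul, zero_div, zero_sub, Complex.normSq_apply]
    have e4 : (2 + Complex.cos ψ + (k : ℂ)).re = 2 + u + k := by
      simp only [Complex.add_re, Complex.re_ofNat, Complex.ofReal_re]
      rw [← hu']
    have e5 : (2 + Complex.cos ψ + (k : ℂ)).im = v := by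
      simp only [Complex.add_im, Complex.im_ofNat, Complex.ofReal_im]
      rw [← hv']; ring
    rw [e4, e5]
    ring
  have h3 : Real.sin (2 * π * δ.re) * |Real.sinh (2 * π * δ.im)| ≤ 0.0581 := by
    have hs := sin_ge h1 h2
    have e6 : Real.sin (2 * π * δ.re) * |Real.sinh (2 * π * δ.im)| =
        |(Complex.cos (2 * π * δ)).im| := by
      rw [e1, abs_neg, abs_mul, abs_of_nonneg (by linarith : (0:ℝ) ≤ Real.sin (2 * π * δ.re))]
    have hq : 0 < (2 + u + k) ^ 2 + v ^ 2 := by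
      have := sq_nonneg v
      have := pow_pos hD0 2
      linarith
    rw [e6, e2, abs_neg, abs_div, abs_mul, abs_of_nonneg (sq_nonneg (1 + k)),
      abs_of_pos hq, div_le_iff₀ hq]
    have h4 : (1 + k) ^ 2 ≤ 0.2597 * (2 + u + k) ^ 2 := by
      have h5 : 1 + k ≤ 0.5096 * (2 + u + k) := by nlinarith
      have h6 : (1 + k) ^ 2 ≤ (0.5096 * (2 + u + k)) ^ 2 := by
        apply pow_le_pow_left₀ (by linarith) h5
      refine h6.trans ?_
      rw [mul_pow]
      apply mul_le_mul_of_nonneg_right _ (sq_nonneg _)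
      norm_num
    calc (1 + k) ^ 2 * |v| ≤ 0.2597 * (2 + u + k) ^ 2 * 0.2237 :=
          mul_le_mul h4 hv (abs_nonneg _) (by positivity)
      _ ≤ 0.0581 * ((2 + u + k) ^ 2 + v ^ 2) := by nlinarith [sq_nonneg v, sq_nonneg (2 + u + k)]
  have h4 : 2 * π * |δ.im| ≤ |Real.sinh (2 * π * δ.im)| := by
    have h5 : |Real.sinh (2 * π * δ.im)| = Real.sinh (2 * π * |δ.im|) := by
      rw [Real.abs_sinh, abs_mul, abs_of_pos (by positivity : (0:ℝ) < 2 * π)]
    rw [h5]
    exact Real.self_le_sinh_iff.2 (by positivity)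
  have hs := sin_ge h1 h2
  have h5 : 0.95 * (2 * π * |δ.im|) ≤ 0.0581 := by
    refine le_trans ?_ h3
    exact mul_le_mul (by linarith) h4 (by positivity) (by linarith)
  nlinarith [abs_nonneg δ.im]

/-! ### The second derivative -/

/-- the first derivative of `TH ψ 1` -/
noncomputable def T1 (ψ δ : ℂ) : ℂ := Complex.log (2 * Complex.cos (π * δ + ψ / 2)) +
      Complex.log (2 * Complex.cos (π * δ - ψ / 2)) +
      (Complex.log (2 * Complex.cos (π * δ + 1 / 2)) +
      Complex.log (2 * Complex.cos (π * δ - 1 / 2))) -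
      4 * Complex.log (2 * Complex.sin (π * δ))

/-- the second derivative of `TH ψ 1` -/
noncomputable def T2 (ψ δ : ℂ) : ℂ := -(2 * π * (Complex.sin (2 * π * δ) /
      (Complex.cos (2 * π * δ) + Complex.cos ψ))) - 2 * π * (Complex.sin (2 * π * δ) /
      (Complex.cos (2 * π * δ) + Complex.cos 1)) - 4 * π * (Complex.cos (π * δ) /
      Complex.sin (π * δ))

theorem mem_WC {δ ψ : ℂ} (ha : |ψ.re| < 21 / 20) (h0 : 0 < δ.re) (h1 : δ.re ≤ 8 / 25) :
    π * δ + ψ / 2 ∈ WC ∧ π * δ - ψ / 2 ∈ WC := by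
  have hp := Real.pi_gt_d4
  have hp' := Real.pi_lt_d4
  rw [abs_lt] at ha
  have e1 : (π * δ + ψ / 2 : ℂ).re = π * δ.re + ψ.re / 2 := by simp
  have e2 : (π * δ - ψ / 2 : ℂ).re = π * δ.re - ψ.re / 2 := by simp
  have h2 : π * δ.re ≤ π * (8 / 25) := mul_le_mul_of_nonneg_left h1 Real.pi_pos.le
  have h3 : 0 < π * δ.re := mul_pos Real.pi_pos h0
  have k1 : |(π * δ + ψ / 2 : ℂ).re| < π / 2 := by
    rw [e1, abs_lt]; constructor <;> linarith
  have k2 : |(π * δ - ψ / 2 : ℂ).re| < π / 2 := by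
    rw [e2, abs_lt]; constructor <;> linarith
  exact ⟨⟨by linarith, Or.inl k1⟩, ⟨by linarith, Or.inl k2⟩⟩

theorem mem_WS {δ : ℂ} (h0 : 0 < δ.re) (h1 : δ.re ≤ 8 / 25) : π * δ ∈ WS := by
  have hp := Real.pi_pos
  have e1 : (π * δ : ℂ).re = π * δ.re := by simp
  have h3 : 0 < π * δ.re := mul_pos Real.pi_pos h0
  have h2 : π * δ.re ≤ π * (8 / 25) := mul_le_mul_of_nonneg_left h1 Real.pi_pos.le
  refine ⟨?_, ?_, Or.inl ?_⟩
  · rw [e1]; linarith
  · rw [e1]; linarith
  · rw [e1]; exact h3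

theorem one_re_lt : |(1 : ℂ).re| < 21 / 20 := by
  rw [Complex.one_re, abs_one]; norm_num

theorem TH_T1 {δ ψ : ℂ} (ha : |ψ.re| < 21 / 20) (h0 : 0 < δ.re) (h1 : δ.re ≤ 8 / 25) :
    HasDerivAt (TH ψ 1) (T1 ψ δ) δ :=
  TH_deriv (mem_WS h0 h1) (mem_WC ha h0 h1).1 (mem_WC ha h0 h1).2 (mem_WC one_re_lt h0 h1).1
    (mem_WC one_re_lt h0 h1).2

theorem log_cos_deriv {w : ℂ} {δ : ℂ} (hw : π * δ + w ∈ WC) :
    HasDerivAt (fun δ : ℂ => Complex.log (2 * Complex.cos (π * δ + w)))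
      (-(π * (Complex.sin (π * δ + w) / Complex.cos (π * δ + w)))) δ := by
  have h0 := cos_mem hw
  have h1 := two_mul_mem h0
  have a0 : HasDerivAt (fun δ : ℂ => π * δ + w) (π : ℂ) δ := by
    simpa using ((hasDerivAt_id δ).const_mul (π : ℂ)).add_const w
  have a1 := (a0.ccos.const_mul 2).clog h1
  refine a1.congr_deriv ?_
  have h2 : Complex.cos (π * δ + w) ≠ 0 := Complex.slitPlane_ne_zero h0
  field_simp

theorem log_sin_deriv {δ : ℂ} (hw : π * δ ∈ WS) :
    HasDerivAt (fun δ : ℂ => Complex.log (2 * Complex.sin (π * δ)))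
      (π * (Complex.cos (π * δ) / Complex.sin (π * δ))) δ := by
  have h0 := sin_mem hw
  have h1 := two_mul_mem h0
  have a0 : HasDerivAt (fun δ : ℂ => π * δ) (π : ℂ) δ := by
    simpa using ((hasDerivAt_id δ).const_mul (π : ℂ))
  have a1 := (a0.csin.const_mul 2).clog h1
  refine a1.congr_deriv ?_
  have h2 : Complex.sin (π * δ) ≠ 0 := Complex.slitPlane_ne_zero h0
  field_simp

theorem tan_add {A B : ℂ} (hA : Complex.cos A ≠ 0) (hB : Complex.cos B ≠ 0) :
    Complex.sin A / Complex.cos A + Complex.sin B / Complex.cos B =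
      2 * (Complex.sin (A + B) / (Complex.cos (A + B) + Complex.cos (A - B))) := by
  have h : Complex.cos (A + B) + Complex.cos (A - B) = 2 * (Complex.cos A * Complex.cos B) := by
    rw [Complex.cos_add, Complex.cos_sub]; ring
  rw [h, Complex.sin_add]
  field_simp
  try ring

theorem T1_T2 {δ ψ : ℂ} (ha : |ψ.re| < 21 / 20) (h0 : 0 < δ.re) (h1 : δ.re ≤ 8 / 25) :
    HasDerivAt (T1 ψ) (T2 ψ δ) δ := by
  obtain ⟨b1, b2⟩ := mem_WC ha h0 h1
  obtain ⟨b3, b4⟩ := mem_WC one_re_lt h0 h1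
  have b5 := mem_WS h0 h1
  have b2' : π * δ + -(ψ / 2) ∈ WC := by rw [← sub_eq_add_neg]; exact b2
  have b4' : π * δ + -(1 / 2) ∈ WC := by rw [← sub_eq_add_neg]; exact b4
  have n1 := Complex.slitPlane_ne_zero (cos_mem b1)
  have n2 := Complex.slitPlane_ne_zero (cos_mem b2)
  have n3 := Complex.slitPlane_ne_zero (cos_mem b3)
  have n4 := Complex.slitPlane_ne_zero (cos_mem b4)
  have a := (((log_cos_deriv b1).add (log_cos_deriv b2')).add
    ((log_cos_deriv b3).add (log_cos_deriv b4'))).sub ((log_sin_deriv b5).const_mul 4)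
  have e : T1 ψ = fun δ : ℂ => (Complex.log (2 * Complex.cos (π * δ + ψ / 2)) +
      Complex.log (2 * Complex.cos (π * δ + -(ψ / 2)))) +
      (Complex.log (2 * Complex.cos (π * δ + 1 / 2)) +
      Complex.log (2 * Complex.cos (π * δ + -(1 / 2)))) -
      4 * Complex.log (2 * Complex.sin (π * δ)) := by
    funext δ
    unfold T1
    simp only [← sub_eq_add_neg]
  rw [e]
  refine a.congr_deriv ?_
  have t1 := tan_add n1 n2
  have t2 := tan_add n3 n4
  have s1 : (π * δ + ψ / 2) + (π * δ - ψ / 2) = 2 * π * δ := by ring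
  have s2 : (π * δ + ψ / 2) - (π * δ - ψ / 2) = ψ := by ring
  have s3 : (π * δ + 1 / 2) + (π * δ - 1 / 2) = 2 * π * δ := by ring
  have s4 : (π * δ + 1 / 2) - (π * δ - 1 / 2) = (1 : ℂ) := by ring
  rw [s1, s2] at t1
  rw [s3, s4] at t2
  unfold T2
  simp only [← sub_eq_add_neg]
  linear_combination (-(π : ℂ)) * t1 - π * t2

/-- bound of the second derivative near the critical point -/
theorem T2_le {δ ψ : ℂ} (ha : |ψ.re| < 21 / 20) (h1 : 1 / 5 ≤ δ.re) (h2 : δ.re ≤ 13 / 50)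
    (h3 : |δ.im| ≤ 98 / 10000) : ‖T2 ψ δ‖ ≤ 46 := by
  have hp := Real.pi_gt_d4
  have hp' := Real.pi_lt_d4
  have hu := cos_re_ge ha
  have hk1 := cos_one_ge
  have hre : (2 * π * δ : ℂ).re = 2 * π * δ.re := by simp
  have him : (2 * π * δ : ℂ).im = 2 * π * δ.im := by simp
  have hre1 : (π * δ : ℂ).re = π * δ.re := by simp
  have him1 : (π * δ : ℂ).im = π * δ.im := by simp
  have q1 : |2 * π * δ.im| ≤ 616 / 10000 := by
    rw [abs_mul, abs_of_pos (by positivity : (0:ℝ) < 2 * π)]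
    nlinarith [abs_nonneg δ.im]
  have q2 : |π * δ.im| ≤ 308 / 10000 := by
    rw [abs_mul, abs_of_pos (by positivity : (0:ℝ) < π)]
    nlinarith [abs_nonneg δ.im]
  have q3 : (2 * π * δ.im) ^ 2 ≤ 0.0038 := by
    rw [← sq_abs]
    have := pow_le_pow_left₀ (abs_nonneg _) q1 2
    norm_num at this ⊢
    linarith
  have q4 : (π * δ.im) ^ 2 ≤ 0.00095 := by
    rw [← sq_abs]
    have := pow_le_pow_left₀ (abs_nonneg _) q2 2
    norm_num at this ⊢
    linarith
  have c1 : Real.cosh (2 * π * δ.im) ≤ 1.002 := by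
    have := cosh_le' (y := 2 * π * δ.im) (by linarith)
    linarith
  have c2 := Real.one_le_cosh (2 * π * δ.im)
  have c3 : Real.sinh (π * δ.im) ^ 2 ≤ 0.00101 := by
    have := sinh_sq_le (y := π * δ.im) (by linarith)
    linarith
  -- sine
  have s1 : ‖Complex.sin (2 * π * δ)‖ ≤ 1.002 := by
    apply abs_le_of_sq_le_sq' _ (by norm_num) |>.2
    rw [← Complex.normSq_eq_norm_sq, Complex.normSq_apply, sin_re', sin_im', hre, him]
    have e1 := Real.sin_sq_add_cos_sq (2 * π * δ.re)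
    have e2 := Real.cosh_sq (2 * π * δ.im)
    nlinarith [sq_nonneg (Real.cos (2 * π * δ.re)), sq_nonneg (Real.sin (2 * π * δ.re))]
  -- denominators
  have r1 : -0.0632 ≤ (Complex.cos (2 * π * δ)).re := by
    rw [cos_re', hre, him]
    have := cos_ge h1 h2
    nlinarith
  have d1 : 0.4338 ≤ ‖Complex.cos (2 * π * δ) + Complex.cos ψ‖ := by
    refine le_trans ?_ (Complex.re_le_norm _)
    rw [Complex.add_re]
    linarith
  have d2 : 0.4768 ≤ ‖Complex.cos (2 * π * δ) + Complex.cos 1‖ := by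
    refine le_trans ?_ (Complex.re_le_norm _)
    rw [Complex.add_re, cos_one_c, Complex.ofReal_re]
    linarith
  -- cotangent
  have t0 : Real.cos (2 * π * δ.re) ≤ 0.3142 := by
    rw [← Real.sin_pi_div_two_sub]
    rcases le_total 0 (π / 2 - 2 * π * δ.re) with h | h
    · refine (Real.sin_le h).trans ?_
      nlinarith
    · have h4 : Real.sin (π / 2 - 2 * π * δ.re) = -Real.sin (2 * π * δ.re - π / 2) := by
        rw [← Real.sin_neg]; congr 1; ring
      have : 0 ≤ Real.sin (2 * π * δ.re - π / 2) :=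
        Real.sin_nonneg_of_nonneg_of_le_pi (by linarith) (by nlinarith)
      linarith
  have t1 : Real.cos (2 * π * δ.re) = 2 * Real.cos (π * δ.re) ^ 2 - 1 := by
    rw [← Real.cos_two_mul]; congr 1; ring
  have t2 := Real.sin_sq_add_cos_sq (π * δ.re)
  have n1 : ‖Complex.cos (π * δ)‖ ^ 2 ≤ 0.6582 := by
    rw [← Complex.normSq_eq_norm_sq, Complex.normSq_apply, cos_re', cos_im', hre1, him1]
    have e2 := Real.cosh_sq (π * δ.im)
    nlinarith [sq_nonneg (Real.cos (π * δ.re)), sq_nonneg (Real.sin (π * δ.re))]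
  have n2 : 0.3429 ≤ ‖Complex.sin (π * δ)‖ ^ 2 := by
    rw [← Complex.normSq_eq_norm_sq, Complex.normSq_apply, sin_re', sin_im', hre1, him1]
    have e2 := Real.cosh_sq (π * δ.im)
    nlinarith [sq_nonneg (Real.cos (π * δ.re)), sq_nonneg (Real.sin (π * δ.re)),
      sq_nonneg (Real.sinh (π * δ.im)), mul_nonneg (sq_nonneg (Real.cos (π * δ.re)))
        (sq_nonneg (Real.sinh (π * δ.im))), mul_nonneg (sq_nonneg (Real.sin (π * δ.re)))
        (sq_nonneg (Real.sinh (π * δ.im)))]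
  have n3 : 0 < ‖Complex.sin (π * δ)‖ := by
    rcases (norm_nonneg (Complex.sin (π * δ))).eq_or_lt with h | h
    · rw [← h] at n2; norm_num at n2
    · exact h
  have n4 : ‖Complex.cos (π * δ) / Complex.sin (π * δ)‖ ≤ 1.3856 := by
    rw [norm_div, div_le_iff₀ n3]
    apply abs_le_of_sq_le_sq' _ (by positivity) |>.2
    rw [mul_pow]
    nlinarith
  have m1 : ‖Complex.sin (2 * π * δ) / (Complex.cos (2 * π * δ) + Complex.cos ψ)‖ ≤ 2.31 := by
    rw [norm_div, div_le_iff₀ (by linarith)]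
    linarith
  have m2 : ‖Complex.sin (2 * π * δ) / (Complex.cos (2 * π * δ) + Complex.cos 1)‖ ≤ 2.102 := by
    rw [norm_div, div_le_iff₀ (by linarith)]
    linarith
  have w1 : ‖(2 * π : ℂ)‖ = 2 * π := by
    rw [norm_mul, Complex.norm_ofNat, Complex.norm_real, Real.norm_eq_abs, abs_of_pos Real.pi_pos]
  have w2 : ‖(4 * π : ℂ)‖ = 4 * π := by
    rw [norm_mul, Complex.norm_ofNat, Complex.norm_real, Real.norm_eq_abs, abs_of_pos Real.pi_pos]
  have v1 : ‖2 * (π : ℂ) * (Complex.sin (2 * π * δ) /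
      (Complex.cos (2 * π * δ) + Complex.cos ψ))‖ ≤ 2 * π * 2.31 := by
    rw [norm_mul, w1]
    exact mul_le_mul_of_nonneg_left m1 (by positivity)
  have v2 : ‖2 * (π : ℂ) * (Complex.sin (2 * π * δ) /
      (Complex.cos (2 * π * δ) + Complex.cos 1))‖ ≤ 2 * π * 2.102 := by
    rw [norm_mul, w1]
    exact mul_le_mul_of_nonneg_left m2 (by positivity)
  have v3 : ‖4 * (π : ℂ) * (Complex.cos (π * δ) / Complex.sin (π * δ))‖ ≤ 4 * π * 1.3856 := by
    rw [norm_mul, w2]
    exact mul_le_mul_of_nonneg_left n4 (by positivity)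
  unfold T2
  have u1 := norm_sub_le (-(2 * (π : ℂ) * (Complex.sin (2 * π * δ) /
      (Complex.cos (2 * π * δ) + Complex.cos ψ))) - 2 * π * (Complex.sin (2 * π * δ) /
      (Complex.cos (2 * π * δ) + Complex.cos 1))) (4 * π * (Complex.cos (π * δ) /
      Complex.sin (π * δ)))
  have u2 := norm_sub_le (-(2 * (π : ℂ) * (Complex.sin (2 * π * δ) /
      (Complex.cos (2 * π * δ) + Complex.cos ψ)))) (2 * π * (Complex.sin (2 * π * δ) /
      (Complex.cos (2 * π * δ) + Complex.cos 1)))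
  rw [norm_neg] at u2
  linarith

/-- concavity on the real axis -/
theorem T2_re {ψ : ℂ} (ha : |ψ.re| < 21 / 20) {x : ℝ} (h0 : 0 < x) (h1 : x ≤ 8 / 25) :
    (T2 ψ x).re ≤ -20 := by
  have hp := Real.pi_gt_d4
  have hp' := Real.pi_lt_d4
  have hu := cos_re_ge ha
  have hk1 := cos_one_ge
  have hk2 := Real.cos_one_le
  have e1 : Complex.sin (2 * π * x) = ((Real.sin (2 * π * x) : ℝ) : ℂ) := by push_cast; rfl
  have e2 : Complex.cos (2 * π * x) = ((Real.cos (2 * π * x) : ℝ) : ℂ) := by push_cast; rfl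
  have e3 : Complex.sin (π * x) = ((Real.sin (π * x) : ℝ) : ℂ) := by push_cast; rfl
  have e4 : Complex.cos (π * x) = ((Real.cos (π * x) : ℝ) : ℂ) := by push_cast; rfl
  have hx1 : π * x ≤ π * (8 / 25) := mul_le_mul_of_nonneg_left h1 Real.pi_pos.le
  have hx0 : 0 < π * x := mul_pos Real.pi_pos h0
  have hs : 0 < Real.sin (π * x) := Real.sin_pos_of_pos_of_lt_pi hx0 (by linarith)
  have hc : 0 < Real.cos (π * x) := Real.cos_pos_of_mem_Ioo ⟨by linarith, by linarith⟩
  have hs2 : Real.sin (2 * π * x) = 2 * Real.sin (π * x) * Real.cos (π * x) := by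
    rw [← Real.sin_two_mul]; congr 1; ring
  have hc2 : Real.cos (2 * π * x) = 2 * Real.cos (π * x) ^ 2 - 1 := by
    rw [← Real.cos_two_mul]; congr 1; ring
  have hsc := Real.sin_sq_add_cos_sq (π * x)
  -- lower bound of the cosine
  have hlow : -(427 / 1000) ≤ Real.cos (2 * π * x) := by
    have h2 : Real.cos (2 * π * (8 / 25)) ≤ Real.cos (2 * π * x) := by
      apply Real.cos_le_cos_of_nonneg_of_le_pi
      · positivity
      · linarith
      · nlinarith
    have h3 : -(427 / 1000) ≤ Real.cos (2 * π * (8 / 25)) := by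
      have h4 : Real.cos (2 * π * (8 / 25)) = -Real.sin (7 / 50 * π) := by
        rw [← Real.cos_pi_div_two_sub, ← Real.cos_pi_sub]
        congr 1; ring
      rw [h4]
      have h5 : Real.sin (7 / 50 * π) ≤ 427 / 1000 := by
        have h6 : Real.sin (7 / 50 * π) ≤ 7 / 50 * π - (7 / 50 * π) ^ 3 / 6 +
            (7 / 50 * π) ^ 5 / 100 := by
          have := Real.sin_bound (x := 7 / 50 * π) (by
            rw [abs_of_pos (by positivity)]; linarith)
          rw [abs_le, abs_of_pos (by positivity : (0:ℝ) < 7 / 50 * π)] at this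
          linarith
        have h7 : 7 / 50 * π ≤ 0.43983 := by linarith
        have h8 : 0.4398 ≤ 7 / 50 * π := by linarith
        have h9 : (0.4398:ℝ) ^ 3 ≤ (7 / 50 * π) ^ 3 := pow_le_pow_left₀ (by norm_num) h8 3
        have h10 : (7 / 50 * π) ^ 5 ≤ (0.43983:ℝ) ^ 5 :=
          pow_le_pow_left₀ (by positivity) h7 5
        norm_num at h9 h10 h6 ⊢
        linarith
      linarith
    linarith
  set k := Real.cos 1 with hk
  set u := Complex.cos ψ with hu'
  set c := Real.cos (π * x) with hcc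
  set s := Real.sin (π * x) with hss
  set C := Real.cos (2 * π * x) with hC
  -- first term
  have f1 : 0 ≤ ((((2 * s * c : ℝ) : ℂ)) / (((C : ℝ) : ℂ) + u)).re := by
    rw [Complex.div_re, Complex.ofReal_re, Complex.ofReal_im, zero_mul, zero_div, add_zero]
    apply div_nonneg _ (Complex.normSq_nonneg _)
    apply mul_nonneg (by positivity)
    rw [Complex.add_re, Complex.ofReal_re]
    linarith
  have hkC : 0 < C + k := by linarith
  have f2 : 2 * (s / ((1 + k) * c)) ≤ 2 * s * c / (C + k) := by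
    rw [← mul_div_assoc, div_le_div_iff₀ (by positivity) hkC]
    have : C + k ≤ (1 + k) * c ^ 2 := by
      rw [hc2]
      nlinarith [sq_nonneg s, sq_nonneg c]
    nlinarith [mul_pos hs hc]
  have f3 : (T2 ψ x).re ≤ -(2 * π * (2 * (s / ((1 + k) * c)))) - 4 * π * (c / s) := by
    unfold T2
    rw [e1, e2, e3, e4, cos_one_c, ← hk, ← hu', hs2]
    have g1 : (-(2 * (π : ℂ) * (((2 * s * c : ℝ) : ℂ) / ((C : ℂ) + u)))).re =
        -(2 * π * (((2 * s * c : ℝ) : ℂ) / ((C : ℂ) + u)).re) := by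
      rw [show (2 * (π : ℂ)) = ((2 * π : ℝ) : ℂ) by push_cast; rfl, Complex.neg_re,
        Complex.re_ofReal_mul]
    have g2 : (2 * (π : ℂ) * (((2 * s * c : ℝ) : ℂ) / ((C : ℂ) + (k : ℂ)))).re =
        2 * π * (2 * s * c / (C + k)) := by
      rw [show 2 * (π : ℂ) * (((2 * s * c : ℝ) : ℂ) / ((C : ℂ) + (k : ℂ))) =
        ((2 * π * (2 * s * c / (C + k)) : ℝ) : ℂ) by push_cast; rfl, Complex.ofReal_re]
    have g3 : (4 * (π : ℂ) * ((c : ℂ) / (s : ℂ))).re = 4 * π * (c / s) := by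
      rw [show 4 * (π : ℂ) * ((c : ℂ) / (s : ℂ)) = ((4 * π * (c / s) : ℝ) : ℂ) by push_cast; rfl,
        Complex.ofReal_re]
    rw [Complex.sub_re, Complex.sub_re, g1, g2, g3]
    have p1 : 0 ≤ 2 * π * (((2 * s * c : ℝ) : ℂ) / ((C : ℂ) + u)).re := by positivity
    have p2 : 2 * π * (2 * (s / ((1 + k) * c))) ≤ 2 * π * (2 * s * c / (C + k)) :=
      mul_le_mul_of_nonneg_left f2 (by positivity)
    linarith
  refine f3.trans ?_
  set r := s / c with hr
  have hr0 : 0 < r := div_pos hs hc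
  have e5 : s / ((1 + k) * c) = r / (1 + k) := by rw [hr]; field_simp
  have e6 : c / s = 1 / r := by rw [hr]; field_simp
  rw [e5, e6]
  have h20 : 20 ≤ 4 * π * (r / (1 + k) + 1 / r) := by
    have h1k : 0 < 1 + k := by linarith
    rw [div_add_div _ _ h1k.ne' hr0.ne', ← mul_div_assoc, le_div_iff₀ (by positivity)]
    nlinarith [sq_nonneg (r - 1.25), sq_nonneg (r - (1 + k) * 0.8)]
  linarith

/-! ### The bound on the real axis -/

/-- a concave function -/
theorem conc_bound {g g' g'' : ℝ → ℝ} {a x₀ : ℝ} (h0 : 0 < x₀) (h1 : x₀ ≤ a)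
    (hg : ∀ x : ℝ, 0 < x → x ≤ a → HasDerivAt g (g' x) x)
    (hg' : ∀ x : ℝ, 0 < x → x ≤ a → HasDerivAt g' (g'' x) x)
    (hn : ∀ x : ℝ, 0 < x → x ≤ a → g'' x ≤ -20) {x : ℝ} (hx0 : 0 < x) (hx1 : x ≤ a) :
    g x ≤ g x₀ + g' x₀ ^ 2 / 40 := by
  set h : ℝ → ℝ := fun y => g y + 10 * (y - x₀) ^ 2 - g' x₀ * (y - x₀) with hh
  set k : ℝ → ℝ := fun y => g' y + 20 * (y - x₀) - g' x₀ with hk
  have d1 : ∀ y : ℝ, 0 < y → y ≤ a → HasDerivAt h (k y) y := by
    intro y hy0 hy1
    have a1 := (((hasDerivAt_id y).sub_const x₀).pow 2).const_mul 10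
    have a2 := ((hasDerivAt_id y).sub_const x₀).const_mul (g' x₀)
    refine (((hg y hy0 hy1).add a1).sub a2).congr_deriv ?_
    simp only [hk, id]
    push_cast
    ring
  have d2 : ∀ y : ℝ, 0 < y → y ≤ a → HasDerivAt k (g'' y + 20) y := by
    intro y hy0 hy1
    have a1 := ((hasDerivAt_id y).sub_const x₀).const_mul 20
    refine (((hg' y hy0 hy1).add a1).sub_const (g' x₀)).congr_deriv ?_
    ring
  have kx0 : k x₀ = 0 := by simp [hk]
  have main : h x ≤ h x₀ := by
    rcases lt_trichotomy x x₀ with hlt | heq | hgt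
    · obtain ⟨c, hc, hc'⟩ := exists_hasDerivAt_eq_slope h k hlt
        (fun y hy => (d1 y (lt_of_lt_of_le hx0 hy.1) (hy.2.trans h1)).continuousAt.continuousWithinAt)
        (fun y hy => d1 y (hx0.trans hy.1) (hy.2.le.trans h1))
      obtain ⟨e, he, he'⟩ := exists_hasDerivAt_eq_slope k (fun y => g'' y + 20) hc.2
        (fun y hy => (d2 y (hx0.trans (lt_of_lt_of_le hc.1 hy.1))
          (hy.2.trans h1)).continuousAt.continuousWithinAt)
        (fun y hy => d2 y (hx0.trans (hc.1.trans hy.1)) (hy.2.le.trans h1))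
      have h3 := hn e (hx0.trans (hc.1.trans he.1)) (he.2.le.trans h1)
      have h4 : 0 ≤ k c := by
        rw [eq_div_iff (by linarith [hc.2]), kx0] at he'
        nlinarith [hc.2]
      rw [hc', div_nonneg_iff] at h4
      rcases h4 with h4 | h4 <;> linarith [h4.1, h4.2]
    · rw [heq]
    · obtain ⟨c, hc, hc'⟩ := exists_hasDerivAt_eq_slope h k hgt
        (fun y hy => (d1 y (lt_of_lt_of_le h0 hy.1) (hy.2.trans hx1)).continuousAt.continuousWithinAt)
        (fun y hy => d1 y (h0.trans hy.1) (hy.2.le.trans hx1))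
      obtain ⟨e, he, he'⟩ := exists_hasDerivAt_eq_slope k (fun y => g'' y + 20) hc.1
        (fun y hy => (d2 y (lt_of_lt_of_le h0 hy.1)
          ((hy.2.trans hc.2.le).trans hx1)).continuousAt.continuousWithinAt)
        (fun y hy => d2 y (h0.trans hy.1) (hy.2.le.trans (hc.2.le.trans hx1)))
      have h3 := hn e (h0.trans he.1) (he.2.le.trans (hc.2.le.trans hx1))
      have h4 : k c ≤ 0 := by
        rw [eq_div_iff (by linarith [hc.1]), kx0] at he'
        nlinarith [hc.1]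
      rw [hc', div_nonpos_iff] at h4
      rcases h4 with h4 | h4 <;> linarith [h4.1, h4.2]
  simp only [hh, sub_self] at main
  nlinarith [sq_nonneg (20 * (x - x₀) - g' x₀)]

theorem re_deriv {F : ℂ → ℂ} {F' : ℂ} {x : ℝ} (h : HasDerivAt F F' (x : ℂ)) :
    HasDerivAt (fun t : ℝ => (F t).re) F'.re x := by
  have := h.comp_ofReal
  exact (Complex.reCLM.hasFDerivAt.comp_hasDerivAt x this)

/-- **the bound on the real axis** -/
theorem real_bound {ψ : ℂ} (ha : |ψ.re| < 21 / 20) (hb : |ψ.im| < 1 / 4)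
    (hD : HasDerivAt (TH ψ 1) 0 (dst ψ 1))
    (hc : Complex.cos (2 * π * dst ψ 1) =
      (1 - Complex.cos ψ * Complex.cos 1) / (2 + Complex.cos ψ + Complex.cos 1))
    (h1 : 1 / 5 ≤ (dst ψ 1).re) (h2 : (dst ψ 1).re ≤ 13 / 50) {x : ℝ} (hx0 : 0 < x)
    (hx1 : x ≤ 8 / 25) : (TH ψ 1 x).re ≤ (sg ψ 1).re + 1 / 100 := by
  have h3 := dst_im ha hb hc h1 h2
  set δ := dst ψ 1 with hδ
  set y := δ.im with hy
  have hT : T1 ψ δ = 0 := (TH_T1 ha (by linarith) (by linarith)).unique hD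
  have hseg : ∀ z ∈ segment ℝ ((δ.re : ℝ) : ℂ) δ, z.re = δ.re ∧ |z.im| ≤ |y| ∧
      ‖z - δ‖ ≤ |y| := by
    rintro z ⟨a, b, ha0, hb0, hab, rfl⟩
    have e1 : (a • ((δ.re : ℝ) : ℂ) + b • δ).re = δ.re := by
      simp only [Complex.add_re, Complex.real_smul, Complex.re_ofReal_mul, Complex.ofReal_re]
      rw [← add_mul, hab, one_mul]
    have e2 : (a • ((δ.re : ℝ) : ℂ) + b • δ).im = b * y := by
      simp only [Complex.add_im, Complex.real_smul, Complex.im_ofReal_mul, Complex.ofReal_im]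
      ring
    refine ⟨e1, ?_, ?_⟩
    · rw [e2, abs_mul, abs_of_nonneg hb0]
      exact mul_le_of_le_one_left (abs_nonneg _) (by linarith)
    · have e3 : a • ((δ.re : ℝ) : ℂ) + b • δ - δ = ((-(a * y) : ℝ) : ℂ) * Complex.I := by
        apply Complex.ext
        · rw [Complex.sub_re, e1, sub_self, Complex.re_ofReal_mul, Complex.I_re, mul_zero]
        · rw [Complex.sub_im, e2, Complex.im_ofReal_mul, Complex.I_im, ← hy]
          have : b = 1 - a := by linarith
          rw [this]; ring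
      rw [e3, norm_mul, Complex.norm_I, mul_one, Complex.norm_real, Real.norm_eq_abs, abs_neg,
        abs_mul, abs_of_nonneg ha0]
      exact mul_le_of_le_one_left (abs_nonneg _) (by linarith)
  have hconv := convex_segment (𝕜 := ℝ) ((δ.re : ℝ) : ℂ) δ
  have m1 := left_mem_segment ℝ ((δ.re : ℝ) : ℂ) δ
  have m2 := right_mem_segment ℝ ((δ.re : ℝ) : ℂ) δ
  have b1 : ∀ z ∈ segment ℝ ((δ.re : ℝ) : ℂ) δ, ‖T1 ψ z‖ ≤ 46 * |y| := by
    intro z hz
    have h4 := hconv.norm_image_sub_le_of_norm_hasDerivWithin_le (f := T1 ψ) (f' := T2 ψ) (C := 46)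
      (fun w hw => (T1_T2 ha (by rw [(hseg w hw).1]; linarith)
        (by rw [(hseg w hw).1]; linarith)).hasDerivWithinAt)
      (fun w hw => T2_le ha (by rw [(hseg w hw).1]; exact h1) (by rw [(hseg w hw).1]; exact h2)
        ((hseg w hw).2.1.trans h3)) m2 hz
    rw [hT, sub_zero] at h4
    refine h4.trans (mul_le_mul_of_nonneg_left (hseg z hz).2.2 (by norm_num))
  have b2 : ‖TH ψ 1 ((δ.re : ℝ) : ℂ) - TH ψ 1 δ‖ ≤ 46 * |y| * |y| := by
    have h4 := hconv.norm_image_sub_le_of_norm_hasDerivWithin_le (f := TH ψ 1) (f' := T1 ψ)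
      (C := 46 * |y|)
      (fun w hw => (TH_T1 ha (by rw [(hseg w hw).1]; linarith)
        (by rw [(hseg w hw).1]; linarith)).hasDerivWithinAt)
      (fun w hw => b1 w hw) m2 m1
    refine h4.trans (mul_le_mul_of_nonneg_left (hseg _ m1).2.2 (by positivity))
  have b3 : (TH ψ 1 ((δ.re : ℝ) : ℂ)).re ≤ (sg ψ 1).re + 46 * |y| * |y| := by
    have h4 := (Complex.re_le_norm (TH ψ 1 ((δ.re : ℝ) : ℂ) - TH ψ 1 δ)).trans b2
    rw [Complex.sub_re] at h4
    have h5 : sg ψ 1 = TH ψ 1 δ := rfl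
    rw [h5]
    linarith
  have b4 := conc_bound (g := fun t : ℝ => (TH ψ 1 t).re) (g' := fun t : ℝ => (T1 ψ t).re)
    (g'' := fun t : ℝ => (T2 ψ t).re) (a := 8 / 25) (x₀ := δ.re) (by linarith) (by linarith)
    (fun t ht0 ht1 => re_deriv (TH_T1 ha (by simpa using ht0) (by simpa using ht1)))
    (fun t ht0 ht1 => re_deriv (T1_T2 ha (by simpa using ht0) (by simpa using ht1)))
    (fun t ht0 ht1 => T2_re ha ht0 ht1) hx0 hx1
  have b5 : (T1 ψ ((δ.re : ℝ) : ℂ)).re ^ 2 ≤ (46 * |y|) ^ 2 := by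
    rw [← sq_abs]
    exact pow_le_pow_left₀ (abs_nonneg _) ((Complex.abs_re_le_norm _).trans (b1 _ m1)) 2
  have b6 := abs_nonneg y
  have b7 : |y| * |y| ≤ 98 / 10000 * (98 / 10000) := mul_le_mul h3 h3 b6 (by norm_num)
  nlinarith

end Pool.Agent.N160.EK
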